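import Pool.Agent.Helper9.MP.Lib

set_option autoImplicit false

namespace Pool.Agent.Helper96.MP

open Complex MeasureTheory Filter Topology
open scoped MatrixGroups

theorem sep_mem (p j : ℕ) (hp : p.Prime) (t : ℕ × ℕ × ℕ) (ht : t ∈ Pj p j) :
    t.1 * t.2.2 = p ^ j ∧ t.2.1 < t.2.2 ∧ Nat.gcd (Nat.gcd t.1 t.2.1) t.2.2 = 1 ∧
      0 < t.1 ∧ 0 < t.2.2 := by
  unfold Pj Tn at ht
  rw [Finset.mem_filter, Finset.mem_filter] at ht
  obtain ⟨⟨_, h1, h2⟩, h3⟩ := ht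
  refine ⟨h1, h2, h3, ?_, by omega⟩
  have h4 : 0 < p ^ j := Nat.pow_pos hp.pos
  rcases Nat.eq_zero_or_pos t.1 with h0 | h0
  · rw [h0, zero_mul] at h1
    omega
  · exact h0

theorem sep_bez (a b d : ℤ) (h : Int.gcd (Int.gcd a b) d = 1) :
    ∃ u v w : ℤ, u * a + v * b + w * d = 1 := by
  have h1 := Int.gcd_eq_gcd_ab ((Int.gcd a b : ℕ) : ℤ) d
  have h2 := Int.gcd_eq_gcd_ab a b
  rw [h] at h1
  set x := Int.gcdA ((Int.gcd a b : ℕ) : ℤ) d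
  set y := Int.gcdB ((Int.gcd a b : ℕ) : ℤ) d
  refine ⟨Int.gcdA a b * x, Int.gcdB a b * x, y, ?_⟩
  rw [h2] at h1
  push_cast at h1
  linarith

theorem sep_bezN (t : ℕ × ℕ × ℕ) (h : Nat.gcd (Nat.gcd t.1 t.2.1) t.2.2 = 1) :
    ∃ u v w : ℤ, u * (t.1 : ℤ) + v * (t.2.1 : ℤ) + w * (t.2.2 : ℤ) = 1 := by
  refine sep_bez _ _ _ ?_
  rw [Int.gcd_natCast_natCast, Int.gcd_natCast_natCast]
  exact h

/-- proportional primitive vectors have the same last entry -/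
theorem sep_prim (a b d a' b' d' : ℤ) (hd : 0 < d) (hd' : 0 < d')
    (h : ∃ u v w : ℤ, u * a + v * b + w * d = 1)
    (h' : ∃ u v w : ℤ, u * a' + v * b' + w * d' = 1)
    (ha : d' * a = d * a') (hb : d' * b = d * b') : d = d' := by
  obtain ⟨u, v, w, h1⟩ := h
  obtain ⟨u', v', w', h2⟩ := h'
  have h3 : d ∣ d' := by
    refine ⟨u * a' + v * b' + w * d', ?_⟩
    linear_combination (-d') * h1 + u * ha + v * hb
  have h4 : d' ∣ d := by
    refine ⟨u' * a + v' * b + w' * d, ?_⟩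
    linear_combination (-d) * h2 - u' * ha - v' * hb
  exact Int.dvd_antisymm hd.le hd'.le h3 h4

/-- consequence of the equations for the entries of `adj(M') δ M` -/
theorem sep_int (P Q R S : ℤ) (t t' : ℕ × ℕ × ℕ) (hdet : P * S - Q * R = 1)
    (hg : Nat.gcd (Nat.gcd t.1 t.2.1) t.2.2 = 1) (hg' : Nat.gcd (Nat.gcd t'.1 t'.2.1) t'.2.2 = 1)
    (ht1 : 0 < t.1) (ht2 : 0 < t.2.2) (htb : t.2.1 < t.2.2)
    (ht1' : 0 < t'.1) (ht2' : 0 < t'.2.2) (htb' : t'.2.1 < t'.2.2)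
    (hC : (t'.1 : ℤ) * R * t.1 = 0)
    (hB : (t'.2.2 : ℤ) * (P * t.2.1 + Q * t.2.2) - t'.2.1 * (R * t.2.1 + S * t.2.2) = 0)
    (hAD : (t'.2.2 : ℤ) * (P * t.1) - t'.2.1 * (R * t.1) = t'.1 * (R * t.2.1 + S * t.2.2)) :
    t' = t ∧ R = 0 ∧ Q = 0 ∧ (P = 1 ∧ S = 1 ∨ P = -1 ∧ S = -1) := by
  obtain ⟨a, b, d⟩ := t
  obtain ⟨a', b', d'⟩ := t'
  simp only at *
  have ha0 : (0 : ℤ) < a := by exact_mod_cast ht1
  have hd0 : (0 : ℤ) < d := by exact_mod_cast ht2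
  have ha0' : (0 : ℤ) < a' := by exact_mod_cast ht1'
  have hd0' : (0 : ℤ) < d' := by exact_mod_cast ht2'
  have hR : R = 0 := by
    rcases mul_eq_zero.1 hC with h | h
    · rcases mul_eq_zero.1 h with h | h
      · omega
      · exact h
    · omega
  rw [hR] at hdet hB hAD
  have hPS : P * S = 1 := by linarith
  obtain ⟨e, he, hPe, hSe⟩ : ∃ e : ℤ, e * e = 1 ∧ P = e ∧ S = e := by
    rcases Int.mul_eq_one_iff_eq_one_or_neg_one.1 hPS with ⟨h1, h2⟩ | ⟨h1, h2⟩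
    · exact ⟨1, by norm_num, h1, h2⟩
    · exact ⟨-1, by norm_num, h1, h2⟩
  rw [hPe, hSe] at hB hAD
  have h1 : (d' : ℤ) * a = d * a' := by
    linear_combination e * hAD - (d' * a - a' * d : ℤ) * he
  have h2 : (d' : ℤ) * b = d * (b' - e * Q * d') := by
    linear_combination e * hB - (d' * b - b' * d : ℤ) * he
  have hpr' : ∃ u v w : ℤ, u * (a' : ℤ) + v * (b' - e * Q * d') + w * d' = 1 := by
    obtain ⟨u, v, w, h⟩ := sep_bezN (a', b', d') hg'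
    simp only at h
    exact ⟨u, v, w + v * (e * Q), by linear_combination h⟩
  have hdd : (d : ℤ) = d' := sep_prim a b d a' (b' - e * Q * d') d' hd0 hd0'
    (sep_bezN (a, b, d) hg) hpr' h1 h2
  have hdd' : d = d' := by exact_mod_cast hdd
  subst hdd'
  have haa : (a : ℤ) = a' := mul_left_cancel₀ hd0.ne' h1
  have haa' : a = a' := by exact_mod_cast haa
  subst haa'
  have hbb : (b : ℤ) = b' - e * Q * d := mul_left_cancel₀ hd0.ne' h2
  have hQ : e * Q = 0 := by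
    have hb1 : (0 : ℤ) ≤ b := Int.natCast_nonneg b
    have hb2 : (0 : ℤ) ≤ b' := Int.natCast_nonneg b'
    have hb3 : (b : ℤ) < d := by exact_mod_cast htb
    have hb4 : (b' : ℤ) < d := by exact_mod_cast htb'
    rcases lt_trichotomy (e * Q) 0 with h | h | h
    · nlinarith
    · exact h
    · nlinarith
  have hQ0 : Q = 0 := by
    rcases mul_eq_zero.1 hQ with h | h
    · rw [h] at he
      norm_num at he
    · exact h
  rw [hQ, zero_mul, sub_zero] at hbb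
  have hbb' : b = b' := by exact_mod_cast hbb
  refine ⟨by rw [hbb'], hR, hQ0, ?_⟩
  rcases Int.mul_eq_one_iff_eq_one_or_neg_one.1 he with ⟨h3, _⟩ | ⟨h3, _⟩
  · left
    exact ⟨by rw [hPe, h3], by rw [hSe, h3]⟩
  · right
    exact ⟨by rw [hPe, h3], by rw [hSe, h3]⟩

/-- pulling back a Hecke point -/
theorem sep_xi (t : ℕ × ℕ × ℕ) (ht1 : 0 < t.1) (ht2 : 0 < t.2.2) (z0 ζ1 : ℂ)
    (h : ζ1 ∈ Metric.ball (act t z0) ((act t z0).im / 10)) :
    ∃ ξ ∈ Metric.ball z0 (z0.im / 10), ζ1 = ((t.1 : ℂ) * ξ + (t.2.1 : ℂ)) / (t.2.2 : ℂ) := by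
  have ha : (0 : ℝ) < t.1 := by exact_mod_cast ht1
  have hd : (0 : ℝ) < t.2.2 := by exact_mod_cast ht2
  have haC : (t.1 : ℂ) ≠ 0 := by exact_mod_cast ht1.ne'
  have hdC : (t.2.2 : ℂ) ≠ 0 := by exact_mod_cast ht2.ne'
  have him : (act t z0).im = (t.1 : ℝ) / t.2.2 * z0.im := by
    unfold act
    have h1 : ((t.1 : ℂ) * z0 + (t.2.1 : ℂ)) / (t.2.2 : ℂ) =
        (((t.1 : ℝ) / t.2.2 : ℝ) : ℂ) * z0 + (((t.2.1 : ℝ) / t.2.2 : ℝ) : ℂ) := by
      push_cast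
      field_simp
    rw [h1, Complex.add_im, Complex.im_ofReal_mul, Complex.ofReal_im, add_zero]
  refine ⟨((t.2.2 : ℂ) * ζ1 - t.2.1) / t.1, ?_, ?_⟩
  · rw [Metric.mem_ball, dist_eq_norm] at h ⊢
    have h1 : ((t.2.2 : ℂ) * ζ1 - t.2.1) / t.1 - z0 =
        ((t.2.2 : ℂ) / t.1) * (ζ1 - act t z0) := by
      unfold act
      field_simp
      ring
    rw [h1, norm_mul, norm_div, Complex.norm_natCast, Complex.norm_natCast]
    rw [him] at h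
    calc (t.2.2 : ℝ) / t.1 * ‖ζ1 - act t z0‖ < (t.2.2 : ℝ) / t.1 * ((t.1 : ℝ) / t.2.2 * z0.im / 10) :=
          mul_lt_mul_of_pos_left h (by positivity)
      _ = z0.im / 10 := by field_simp
  · field_simp
    ring

theorem st_SEP : ST_SEP := by
  intro N p J hN hp z0 hz0 hbad ζ hζ
  set Sx : Set (SL(2, ℤ) × (ℕ × ℕ × ℕ)) :=
    {u | u.1 ∈ CongruenceSubgroup.Gamma0 N ∧ (∃ j ≤ J, u.2 ∈ Pj p j) ∧
      mob u.1 ζ ∈ Metric.ball (act u.2 z0) ((act u.2 z0).im / 10)} with hSx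
  have hkey : ∀ u ∈ Sx, ∀ u' ∈ Sx, u' = u ∨ u' = (-u.1, u.2) := by
    rintro ⟨γ, t⟩ ⟨hγ, ⟨j, hj, ht⟩, hb⟩ ⟨γ', t'⟩ ⟨hγ', ⟨j', hj', ht'⟩, hb'⟩
    simp only at hγ hγ' ht ht' hb hb'
    obtain ⟨had, hbd, hg, ht1, ht2⟩ := sep_mem p j hp t ht
    obtain ⟨had', hbd', hg', ht1', ht2'⟩ := sep_mem p j' hp t' ht'
    obtain ⟨ξ, hξ, hζξ⟩ := sep_xi t ht1 ht2 z0 _ hb
    obtain ⟨ξ', hξ', hζξ'⟩ := sep_xi t' ht1' ht2' z0 _ hb'
    set δ := γ' * γ⁻¹ with hδ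
    have hδN : (N : ℤ) ∣ δ 1 0 := by
      have h1 : δ ∈ CongruenceSubgroup.Gamma0 N :=
        (CongruenceSubgroup.Gamma0 N).mul_mem hγ' ((CongruenceSubgroup.Gamma0 N).inv_mem hγ)
      exact (Lib.g0_of_mem h1).2
    have hδdet := Lib.det1 δ
    have hζ1 : mob γ ζ ∈ UH := Lib.mob_mem γ hζ
    have hmob : mob δ (mob γ ζ) = mob γ' ζ := by
      rw [hδ, Lib.mob_mul _ _ hζ1, Lib.mob_inv_mob γ hζ]
    have hjj : jj δ (mob γ ζ) ≠ 0 := Lib.jj_ne δ hζ1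
    have haC : (t.1 : ℂ) ≠ 0 := by exact_mod_cast ht1.ne'
    have hdC : (t.2.2 : ℂ) ≠ 0 := by exact_mod_cast ht2.ne'
    have haC' : (t'.1 : ℂ) ≠ 0 := by exact_mod_cast ht1'.ne'
    have hdC' : (t'.2.2 : ℂ) ≠ 0 := by exact_mod_cast ht2'.ne'
    have hent : ((t'.2.2 : ℤ) * (δ 0 1 * t.2.2 + δ 0 0 * t.2.1) -
        t'.2.1 * (δ 1 0 * t.2.1 + δ 1 1 * t.2.2) = 0) ∧ ((t'.1 : ℤ) * δ 1 0 * t.1 = 0) ∧
        ((t'.2.2 : ℤ) * (δ 0 0 * t.1) - t'.2.1 * (δ 1 0 * t.1) =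
          t'.1 * (δ 1 0 * t.2.1 + δ 1 1 * t.2.2)) := by
      by_contra hcon
      apply hbad
      refine ⟨j + j', by omega, (t'.2.2 : ℤ) * (δ 0 0 * t.1) - t'.2.1 * (δ 1 0 * t.1),
        (t'.2.2 : ℤ) * (δ 0 1 * t.2.2 + δ 0 0 * t.2.1) -
          t'.2.1 * (δ 1 0 * t.2.1 + δ 1 1 * t.2.2), (t'.1 : ℤ) * δ 1 0 * t.1,
        t'.1 * (δ 1 0 * t.2.1 + δ 1 1 * t.2.2), ?_, ?_, hcon, ξ, hξ, ξ', hξ', ?_⟩
      · have e1 : ((t.1 : ℤ) * t.2.2) = (p : ℤ) ^ j := by exact_mod_cast had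
        have e2 : ((t'.1 : ℤ) * t'.2.2) = (p : ℤ) ^ j' := by exact_mod_cast had'
        rw [pow_add, ← e1, ← e2]
        linear_combination ((t.1 : ℤ) * t.2.2 * (t'.1 * t'.2.2)) * hδdet
      · exact Dvd.dvd.mul_right (Dvd.dvd.mul_left hδN _) _
      · have h1 : ξ' = ((t'.2.2 : ℂ) * mob γ' ζ - t'.2.1) / t'.1 := by
          rw [hζξ']
          field_simp
          ring
        have h2 : mob γ' ζ * jj δ (mob γ ζ) = ((δ 0 0 : ℤ) : ℂ) * mob γ ζ + ((δ 0 1 : ℤ) : ℂ) := by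
          rw [← hmob]
          unfold mob mo
          unfold jj at hjj ⊢
          exact div_mul_cancel₀ _ hjj
        have h3 : (((t'.1 : ℤ) * δ 1 0 * t.1 : ℤ) : ℂ) * ξ +
            ((t'.1 * (δ 1 0 * t.2.1 + δ 1 1 * t.2.2) : ℤ) : ℂ) =
            (t'.1 : ℂ) * t.2.2 * jj δ (mob γ ζ) := by
          unfold jj
          rw [hζξ]
          push_cast
          field_simp
          ring
        have h4 : ((((t'.2.2 : ℤ) * (δ 0 0 * t.1) - t'.2.1 * (δ 1 0 * t.1) : ℤ)) : ℂ) * ξ +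
            (((t'.2.2 : ℤ) * (δ 0 1 * t.2.2 + δ 0 0 * t.2.1) -
              t'.2.1 * (δ 1 0 * t.2.1 + δ 1 1 * t.2.2) : ℤ) : ℂ) =
            (t.2.2 : ℂ) * ((t'.2.2 : ℂ) * (mob γ' ζ * jj δ (mob γ ζ)) -
              t'.2.1 * jj δ (mob γ ζ)) := by
          rw [h2]
          unfold jj
          rw [hζξ]
          push_cast
          field_simp
          ring
        unfold mo
        rw [h3, h4, h1]
        field_simp
    obtain ⟨hB, hC, hAD⟩ := hent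
    obtain ⟨htt, hR, hQ, hPS⟩ := sep_int (δ 0 0) (δ 0 1) (δ 1 0) (δ 1 1) t t' hδdet hg hg' ht1 ht2
      hbd ht1' ht2' hbd' hC (by linarith) hAD
    have hγδ : γ' = δ * γ := by rw [hδ, inv_mul_cancel_right]
    rcases hPS with ⟨hP, hS⟩ | ⟨hP, hS⟩
    · left
      have h1 : δ = 1 := by
        ext i j
        fin_cases i <;> fin_cases j <;> simp [hP, hS, hR, hQ]
      rw [hγδ, h1, one_mul, htt]
    · right
      have h1 : δ = -1 := by
        ext i j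
        fin_cases i <;> fin_cases j <;> simp [hP, hS, hR, hQ]
      rw [hγδ, h1, htt, neg_one_mul]
  rcases Sx.eq_empty_or_nonempty with he | ⟨u, hu⟩
  · rw [he]
    exact ⟨Set.finite_empty, by simp⟩
  · have hsub : Sx ⊆ {u, (-u.1, u.2)} := by
      intro u' hu'
      rcases hkey u hu u' hu' with h | h
      · exact Or.inl h
      · exact Or.inr h
    have hfin : ({u, (-u.1, u.2)} : Set (SL(2, ℤ) × (ℕ × ℕ × ℕ))).Finite := by
      exact (Set.finite_singleton _).insert _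
    refine ⟨hfin.subset hsub, (Set.ncard_le_ncard hsub hfin).trans ?_⟩
    refine (Set.ncard_insert_le _ _).trans ?_
    rw [Set.ncard_singleton]

end Pool.Agent.Helper96.MP
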