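import Pool.Agent.Helper9.MP.Lat
import Pool.Agent.Helper95.MP.AMPD

/-!
# MP_bde085_nt, module AMDW: dimension bounds with Atkin-Lehner amplification
-/

set_option autoImplicit false

namespace Pool.Agent.Helper96.MP

open Complex MeasureTheory Filter Topology
open scoped MatrixGroups

theorem amdw_isOpen_bad (N p J : ℕ) : IsOpen {z : ℂ | Badw N p J z} := by
  rw [isOpen_iff_mem_nhds]
  rintro z ⟨i, hi, Q, hQ, A, B, C, D, h1, h2, ξ, hξ, ξ', hξ', h4⟩
  have o1 : IsOpen {z0 : ℂ | dist ξ z0 < z0.im / 8} :=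
    isOpen_lt (continuous_const.dist continuous_id) (Complex.continuous_im.div_const _)
  have o2 : IsOpen {z0 : ℂ | dist ξ' z0 < z0.im / 8} :=
    isOpen_lt (continuous_const.dist continuous_id) (Complex.continuous_im.div_const _)
  filter_upwards [o1.mem_nhds hξ, o2.mem_nhds hξ'] with w hw1 hw2
  exact ⟨i, hi, Q, hQ, A, B, C, D, h1, h2, ξ, hw1, ξ', hw2, h4⟩

/-- the bound before the choice of the parameters -/
theorem amdw_core (hNRM : ST_NRM) (hCOS : ST_COS) (hPNF : ST_PNF) (hQDIF : ST_QDIF)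
    (hQUNI : ST_QUNI) (hDIMK : ST_DIMK) {C0 C1 C2 : ℝ} (hC0 : 0 < C0) (hC1 : 0 < C1) (hC2 : 0 < C2)
    {N p J : ℕ} {α Y : ℝ} {χ : ℕ → ℝ} (hN : 1 ≤ N) (hp : p.Prime) (hpN : ¬ p ∣ N) (hY1 : 1 ≤ Y)
    (hUB : ∀ b : ℕ → ℂ, Cusp N b → ∀ (g : SL(2, ℤ)) (z : ℂ), (4 : ℝ) / 5 ≤ z.im →
      gsq b g z * z.im ^ 2 ≤ C0 * nrm N b)
    (hAMPW : ∀ b : ℕ → ℂ, Cusp N b → EW N χ b → (J = 0 ∨ ∀ n, Tl p b n = (α : ℂ) * b n) →
      ∀ z0 ∈ UH, ¬ Badw N p J z0 →
      ((J : ℝ) + 1) * ((UD N).card : ℝ) * (z0.im ^ 2 * ‖qs b z0‖ ^ 2) ≤ C1 * nrm N b)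
    (hNBW : ∀ z ∈ SB, z.im ≤ Y → ({x : PN N | Badw N p J (mob (rep N x) z)}.ncard : ℝ) ≤
      C2 * ((p : ℝ) ^ J * Y) ^ 12 * (N : ℝ) ^ (3 / 4 : ℝ))
    (hcard : 0 < ((UD N).card : ℝ))
    (S : Submodule ℂ (ℕ → ℂ)) (hS : ∀ b ∈ S, Cusp N b ∧ EW N χ b ∧
      (J = 0 ∨ ∀ n, Tl p b n = (α : ℂ) * b n)) :
    (Module.finrank ℂ S : ℝ) ≤ psi N * ((C1 * (((J : ℝ) + 1) * ((UD N).card : ℝ))⁻¹) * (5 / 4) + C0 * Y⁻¹) +
        C0 * (C2 * ((p : ℝ) ^ J * Y) ^ 12 * (N : ℝ) ^ (3 / 4 : ℝ) * (5 / 4)) := by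
  obtain ⟨hfin, hcard1, hcard2⟩ := hPNF N hN
  have := hfin
  have : Fintype (PN N) := Fintype.ofFinite _
  have hSC : ∀ b ∈ S, Cusp N b := fun b hb => (hS b hb).1
  have hN1 : (1 : ℝ) ≤ N := by exact_mod_cast hN
  have hN0 : (0 : ℝ) < N := by linarith
  have hp2 : (2 : ℝ) ≤ p := by exact_mod_cast hp.two_le
  have hcardR : (N : ℝ) ≤ (Nat.card (PN N) : ℝ) := by exact_mod_cast hcard1
  have hpsi : (N : ℝ) ≤ psi N := hcardR.trans hcard2
  have hpsi0 : 0 < psi N := by linarith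
  have hY0 : 0 < Y := by linarith
  set u : ℝ := ((J : ℝ) + 1) * ((UD N).card : ℝ) with hu
  have hu0 : 0 < u := by positivity
  clear_value u
  by_cases hfd : FiniteDimensional ℂ S
  swap
  · rw [Module.finrank_of_not_finite hfd, Nat.cast_zero]
    positivity
  have := hfd
  obtain ⟨hi0, hi1⟩ := ampd_int0 hNRM
  have hSBm : MeasurableSet SB := ampd_isClosed_SB.measurableSet
  have hcardF : (Nat.card (PN N) : ℝ) = (Fintype.card (PN N) : ℝ) := by
    rw [Nat.card_eq_fintype_card]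
  have hgq : ∀ b ∈ S, ∀ x : PN N, ∀ z ∈ SB,
      gsq b (rep N x) z ≤ C0 * (z.im ^ 2)⁻¹ * nrm N b := by
    intro b hb x z hz
    have h1 := hUB b (hSC b hb) (rep N x) z hz.2
    have h2 : 0 < z.im ^ 2 := by
      have : 0 < z.im := Lib.SB_sub_UH hz
      positivity
    have h3 : gsq b (rep N x) z ≤ C0 * nrm N b / z.im ^ 2 := by
      rw [le_div_iff₀ h2]
      exact h1
    calc gsq b (rep N x) z ≤ C0 * nrm N b / z.im ^ 2 := h3
      _ = C0 * (z.im ^ 2)⁻¹ * nrm N b := by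
        rw [div_eq_mul_inv]
        ring
  -- the sets
  set f : ℂ → ℝ := fun z => (z.im ^ 2)⁻¹ with hf
  have hf0 : ∀ z, 0 ≤ f z := fun z => by positivity
  set T : Set ℂ := {z : ℂ | Y ≤ z.im} with hT
  have hTm : MeasurableSet T := (isClosed_le continuous_const Complex.continuous_im).measurableSet
  set W : PN N → Set ℂ := fun x => (UH ∩ mob (rep N x) ⁻¹' {z : ℂ | Badw N p J z}) ∩
    {z : ℂ | z.im ≤ Y} with hW
  have hWm : ∀ x, MeasurableSet (W x) := fun x =>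
    (((Lib.continuousOn_mob (rep N x)).isOpen_inter_preimage Lib.isOpen_UH
      (amdw_isOpen_bad N p J)).measurableSet).inter
      (isClosed_le Complex.continuous_im continuous_const).measurableSet
  obtain ⟨hiY, hiY2⟩ := hNRM.2.2 Y (by linarith)
  have hiT : IntegrableOn (T.indicator f) SB := hi0.indicator hTm
  have hiW : ∀ x, IntegrableOn ((W x).indicator f) SB := fun x => hi0.indicator (hWm x)
  have h1 := ampd_dim hDIMK hNRM hCOS hQDIF hQUNI hN S hSC
    (fun x z => (C1 * u⁻¹) * f z + C0 * T.indicator f z + C0 * (W x).indicator f z)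
    (fun x => ((hi0.const_mul _).add (hiT.const_mul C0)).add ((hiW x).const_mul C0))
    (fun x z _ => by
      have e0 := hf0 z
      have e1 : 0 ≤ T.indicator f z := Set.indicator_nonneg (fun z _ => hf0 z) z
      have e2 : 0 ≤ (W x).indicator f z := Set.indicator_nonneg (fun z _ => hf0 z) z
      positivity) ?_
  swap
  · intro b hb x z hz
    have hn := ampd_nrm_nonneg hNRM hN (hSC b hb)
    have hzU := Lib.SB_sub_UH hz
    have hz2 : 0 < z.im ^ 2 := by
      have : 0 < z.im := hzU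
      positivity
    have hTn : 0 ≤ T.indicator f z := Set.indicator_nonneg (fun z _ => hf0 z) z
    have hWn : 0 ≤ (W x).indicator f z := Set.indicator_nonneg (fun z _ => hf0 z) z
    have hfz := hf0 z
    have hA : 0 ≤ C1 * u⁻¹ * f z := by positivity
    by_cases hzT : z ∈ T
    · refine (hgq b hb x z hz).trans ?_
      refine mul_le_mul_of_nonneg_right ?_ hn
      rw [Set.indicator_of_mem hzT]
      have : 0 ≤ C0 * (W x).indicator f z := by positivity
      change C0 * f z ≤ _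
      linarith
    · by_cases hzW : z ∈ W x
      · refine (hgq b hb x z hz).trans ?_
        refine mul_le_mul_of_nonneg_right ?_ hn
        rw [Set.indicator_of_mem hzW]
        have : 0 ≤ C0 * T.indicator f z := by positivity
        change C0 * f z ≤ _
        linarith
      · have hzY : z.im ≤ Y := by
          have : ¬ (Y ≤ z.im) := hzT
          linarith
        have hnb : ¬ Badw N p J (mob (rep N x) z) := by
          intro hbad
          exact hzW ⟨⟨hzU, hbad⟩, hzY⟩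
        have h2 := hAMPW b (hSC b hb) (hS b hb).2.1 (hS b hb).2.2 (mob (rep N x) z)
          (Lib.mob_mem _ hzU) hnb
        rw [← Lib.gsq_im b (rep N x) hzU] at h2
        have h3 : gsq b (rep N x) z ≤ C1 * u⁻¹ * f z * nrm N b := by
          have h4 : gsq b (rep N x) z = (u * (gsq b (rep N x) z * z.im ^ 2)) * (u⁻¹ * f z) := by
            have n1 : u * u⁻¹ = 1 := mul_inv_cancel₀ hu0.ne'
            have n2 : z.im ^ 2 * f z = 1 := mul_inv_cancel₀ hz2.ne'
            calc gsq b (rep N x) z = gsq b (rep N x) z * (u * u⁻¹) *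
                  (z.im ^ 2 * f z) := by rw [n1, n2, mul_one, mul_one]
              _ = _ := by ring
          rw [h4]
          calc (u * (gsq b (rep N x) z * z.im ^ 2)) * (u⁻¹ * f z)
              ≤ (C1 * nrm N b) * (u⁻¹ * f z) :=
                mul_le_mul_of_nonneg_right h2 (by positivity)
            _ = _ := by ring
        refine h3.trans (mul_le_mul_of_nonneg_right ?_ hn)
        have e1 : 0 ≤ C0 * T.indicator f z := by positivity
        have e2 : 0 ≤ C0 * (W x).indicator f z := by positivity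
        linarith
  -- evaluation of the integrals
  have h2 : ∀ x : PN N, ∫ z in SB, ((C1 * u⁻¹) * f z + C0 * T.indicator f z +
      C0 * (W x).indicator f z) = (C1 * u⁻¹) * (5 / 4) + C0 * Y⁻¹ +
      C0 * ∫ z in SB, (W x).indicator f z := by
    intro x
    have i1 : Integrable (fun z => (C1 * u⁻¹) * f z) (volume.restrict SB) :=
      hi0.const_mul _
    have i2 : Integrable (fun z => C0 * T.indicator f z) (volume.restrict SB) :=
      hiT.const_mul C0
    have i3 : Integrable (fun z => C0 * (W x).indicator f z) (volume.restrict SB) :=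
      (hiW x).const_mul C0
    have i12 : Integrable (fun z => (C1 * u⁻¹) * f z + C0 * T.indicator f z)
      (volume.restrict SB) := i1.add i2
    rw [integral_add i12 i3, integral_add i1 i2, integral_const_mul,
      integral_const_mul, integral_const_mul, hi1, setIntegral_indicator hTm, hiY2]
  have h3 : ∑ x : PN N, ∫ z in SB, (W x).indicator f z ≤
      C2 * ((p : ℝ) ^ J * Y) ^ 12 * (N : ℝ) ^ (3 / 4 : ℝ) * (5 / 4) := by
    rw [← integral_finsetSum _ (fun x _ => hiW x), ← hi1, ← integral_const_mul]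
    refine setIntegral_mono_on (integrable_finsetSum _ (fun x _ => hiW x))
      (hi0.const_mul _) hSBm ?_
    intro z hz
    have hzU := Lib.SB_sub_UH hz
    by_cases hzY : z.im ≤ Y
    · have h4 := hNBW z hz hzY
      have h5 : ∑ x : PN N, (W x).indicator f z =
          ({x : PN N | Badw N p J (mob (rep N x) z)}.ncard : ℝ) * f z := by
        classical
        have h6 : ∀ x : PN N, (W x).indicator f z =
            if Badw N p J (mob (rep N x) z) then f z else 0 := by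
          intro x
          by_cases hbad : Badw N p J (mob (rep N x) z)
          · rw [if_pos hbad, Set.indicator_of_mem]
            exact ⟨⟨hzU, hbad⟩, hzY⟩
          · rw [if_neg hbad, Set.indicator_of_notMem]
            intro h7
            exact hbad h7.1.2
        rw [Finset.sum_congr rfl (fun x _ => h6 x), ← Finset.sum_filter, Finset.sum_const,
          nsmul_eq_mul, Set.ncard_eq_toFinset_card']
        congr 3
        ext x
        simp
      rw [h5]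
      exact mul_le_mul_of_nonneg_right h4 (hf0 z)
    · have h5 : ∑ x : PN N, (W x).indicator f z = 0 := by
        refine Finset.sum_eq_zero fun x _ => ?_
        rw [Set.indicator_of_notMem]
        intro h7
        exact hzY h7.2
      rw [h5]
      have := hf0 z
      positivity
  have h5 : ∑ x : PN N, ∫ z in SB, ((C1 * u⁻¹) * f z + C0 * T.indicator f z +
      C0 * (W x).indicator f z) ≤
      (Nat.card (PN N) : ℝ) * ((C1 * u⁻¹) * (5 / 4) + C0 * Y⁻¹) +
      C0 * (C2 * ((p : ℝ) ^ J * Y) ^ 12 * (N : ℝ) ^ (3 / 4 : ℝ) * (5 / 4)) := by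
    rw [Finset.sum_congr rfl (fun x _ => h2 x), Finset.sum_add_distrib, Finset.sum_const,
      Finset.card_univ, nsmul_eq_mul, ← hcardF, ← Finset.mul_sum]
    have := mul_le_mul_of_nonneg_left h3 hC0.le
    linarith
  refine h1.trans (h5.trans ?_)
  have hq : 0 ≤ (C1 * u⁻¹) * (5 / 4) + C0 * Y⁻¹ := by positivity
  have := mul_le_mul_of_nonneg_right hcard2 hq
  linarith

/-- choice of `Y`: final form in terms of `J` -/
theorem amdw_opt {C0 C1 C2 C3 : ℝ} (hC0 : 0 < C0) (hC1 : 0 < C1) (hC2 : 0 < C2) (hC3 : 0 < C3)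
    {N p J : ℕ} {Y ps w D : ℝ} (hN : 1 ≤ N) (hp : p.Prime) (hY : Y = (N : ℝ) ^ (1 / 200 : ℝ))
    (hpsi : (N : ℝ) ≤ ps) (hJ : (J : ℝ) ≤ Real.log N / (200 * Real.log p)) (hw : 1 ≤ w)
    (hw2 : w ≤ C3 * (N : ℝ) ^ (1 / 400 : ℝ))
    (hD : D ≤ ps * ((C1 * (((J : ℝ) + 1) * w)⁻¹) * (5 / 4) + C0 * Y⁻¹) +
        C0 * (C2 * ((p : ℝ) ^ J * Y) ^ 12 * (N : ℝ) ^ (3 / 4 : ℝ) * (5 / 4))) :
    D ≤ (2 * C1 + 10 * C0 * C3 + 10 * C0 * C2 * C3) * (ps / w) * ((J : ℝ) + 1)⁻¹ := by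
  have hN1 : (1 : ℝ) ≤ N := by exact_mod_cast hN
  have hN0 : (0 : ℝ) < N := by linarith
  have hps0 : 0 < ps := by linarith
  have hp2 : (2 : ℝ) ≤ p := by exact_mod_cast hp.two_le
  have hlp : Real.log 2 ≤ Real.log p := Real.log_le_log (by norm_num) hp2
  have hl2p : (1 : ℝ) / 2 < Real.log 2 := lt_trans (by norm_num) Real.log_two_gt_d9
  have hlp2 : (1 : ℝ) / 2 ≤ Real.log p := by linarith
  have hlp0 : 0 < Real.log p := by linarith
  have hlN : 0 ≤ Real.log N := Real.log_nonneg hN1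
  have hY1 : 1 ≤ Y := by rw [hY]; exact Real.one_le_rpow hN1 (by norm_num)
  have hY0 : 0 < Y := by linarith
  have hJ0 : (0 : ℝ) ≤ J := Nat.cast_nonneg J
  set Z : ℝ := (N : ℝ) ^ (1 / 400 : ℝ) with hZ
  have hZ1 : 1 ≤ Z := Real.one_le_rpow hN1 (by norm_num)
  have hZZ : Z * Z = Y := by
    rw [hZ, hY, ← Real.rpow_add hN0]
    norm_num
  have hJZ : (J : ℝ) + 1 ≤ 5 * Z := by
    have h1 : Real.log N ≤ (N : ℝ) ^ (1 / 400 : ℝ) / (1 / 400) :=
      Real.log_le_rpow_div (by positivity) (by norm_num)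
    have h2 : Real.log N ≤ 400 * Z := by
      rw [← hZ] at h1
      linarith
    have h3 : Real.log N / (200 * Real.log p) ≤ Real.log N / 100 := by
      apply div_le_div_of_nonneg_left hlN (by norm_num) (by linarith)
    linarith
  have hu0 : 0 < ((J : ℝ) + 1) * w := by positivity
  have huY : ((J : ℝ) + 1) * w ≤ 5 * C3 * Y := by
    rw [← hZZ]
    calc ((J : ℝ) + 1) * w ≤ (5 * Z) * (C3 * Z) := by
          apply mul_le_mul hJZ hw2 (by linarith) (by positivity)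
      _ = 5 * C3 * (Z * Z) := by ring
  have hYu : Y⁻¹ ≤ 5 * C3 * (((J : ℝ) + 1) * w)⁻¹ := by
    rw [← div_eq_mul_inv, le_div_iff₀ hu0, inv_mul_le_iff₀ hY0]
    linarith
  have hpJ : (p : ℝ) ^ J ≤ Y := by
    have h1 : (p : ℝ) ^ J = Real.exp (J * Real.log p) := by
      rw [mul_comm, Real.exp_mul, Real.exp_log (by linarith), Real.rpow_natCast]
    have h2 : Y = Real.exp (Real.log N * (1 / 200)) := by
      rw [Real.exp_mul, Real.exp_log hN0, hY]
    rw [h1, h2]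
    apply Real.exp_le_exp.mpr
    rw [le_div_iff₀ (by positivity)] at hJ
    linarith
  have hlast : ((p : ℝ) ^ J * Y) ^ 12 * (N : ℝ) ^ (3 / 4 : ℝ) ≤ ps * Y⁻¹ := by
    have a1 : ((p : ℝ) ^ J * Y) ^ 12 ≤ (Y * Y) ^ 12 := by gcongr
    have a2 : (Y * Y) ^ 12 = (N : ℝ) ^ (24 / 200 : ℝ) := by
      have : (Y * Y) ^ 12 = Y ^ (24 : ℕ) := by ring
      rw [this, hY, ← Real.rpow_natCast, ← Real.rpow_mul hN0.le]
      norm_num
    rw [le_mul_inv_iff₀ hY0]
    calc ((p : ℝ) ^ J * Y) ^ 12 * (N : ℝ) ^ (3 / 4 : ℝ) * Y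
        ≤ (Y * Y) ^ 12 * (N : ℝ) ^ (3 / 4 : ℝ) * Y := by gcongr
      _ = (N : ℝ) ^ (24 / 200 + 3 / 4 + 1 / 200 : ℝ) := by
          rw [a2, hY, ← Real.rpow_add hN0, ← Real.rpow_add hN0]
      _ ≤ (N : ℝ) ^ (1 : ℝ) := Real.rpow_le_rpow_of_exponent_le hN1 (by norm_num)
      _ = N := Real.rpow_one _
      _ ≤ ps := hpsi
  have e1 : C0 * (C2 * ((p : ℝ) ^ J * Y) ^ 12 * (N : ℝ) ^ (3 / 4 : ℝ) * (5 / 4))
      ≤ C0 * C2 * (5 / 4) * (ps * Y⁻¹) := by
    have := mul_le_mul_of_nonneg_left hlast (by positivity : 0 ≤ C0 * C2 * (5 / 4))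
    calc C0 * (C2 * ((p : ℝ) ^ J * Y) ^ 12 * (N : ℝ) ^ (3 / 4 : ℝ) * (5 / 4))
        = C0 * C2 * (5 / 4) * (((p : ℝ) ^ J * Y) ^ 12 * (N : ℝ) ^ (3 / 4 : ℝ)) := by ring
      _ ≤ _ := this
  have e2 : ps * Y⁻¹ ≤ 5 * C3 * (ps * (((J : ℝ) + 1) * w)⁻¹) := by
    have := mul_le_mul_of_nonneg_left hYu hps0.le
    linarith
  have e3 : ps / w * ((J : ℝ) + 1)⁻¹ = ps * (((J : ℝ) + 1) * w)⁻¹ := by
    rw [mul_inv, div_eq_mul_inv]
    ring
  have e4 : (2 * C1 + 10 * C0 * C3 + 10 * C0 * C2 * C3) * (ps / w) * ((J : ℝ) + 1)⁻¹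
      = (2 * C1 + 10 * C0 * C3 + 10 * C0 * C2 * C3) * (ps * (((J : ℝ) + 1) * w)⁻¹) := by
    rw [mul_assoc, e3]
  rw [e4]
  set X : ℝ := ps * (((J : ℝ) + 1) * w)⁻¹ with hX
  have hX0 : 0 < X := by positivity
  have e5 : ps * ((C1 * (((J : ℝ) + 1) * w)⁻¹) * (5 / 4) + C0 * Y⁻¹)
      = C1 * (5 / 4) * X + C0 * (ps * Y⁻¹) := by
    rw [hX]
    ring
  rw [e5] at hD
  have e6 := mul_le_mul_of_nonneg_left e2 hC0.le
  have e7 := mul_le_mul_of_nonneg_left e2 (by positivity : 0 ≤ C0 * C2 * (5 / 4))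
  have e8 : D ≤ C1 * (5 / 4) * X + C0 * (5 * C3 * X) + C0 * C2 * (5 / 4) * (5 * C3 * X) := by
    linarith
  refine e8.trans ?_
  have f1 : 0 ≤ C1 * X := by positivity
  have f2 : 0 ≤ C0 * C3 * X := by positivity
  have f3 : 0 ≤ C0 * C2 * C3 * X := by positivity
  nlinarith

theorem st_AMDW (hUB : ST_UB) (hAMPW : ST_AMPW) (hNBW : ST_NBW) (hDIMK : ST_DIMK)
    (hNRM : ST_NRM) (hCOS : ST_COS) (hPNF : ST_PNF) (hQDIF : ST_QDIF) (hQUNI : ST_QUNI)
    (hOMB : ST_OMB) (hUDC : ST_UDC) (_hFCL : ST_FCL) : ST_AMDW := by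
  obtain ⟨C0, hC0, hUB⟩ := hUB
  obtain ⟨C1, hC1, hAMPW⟩ := hAMPW
  obtain ⟨C2, hC2, hNBW⟩ := hNBW
  obtain ⟨C3, hC3, hOMB⟩ := hOMB
  set A : ℝ := 2 * C1 + 10 * C0 * C3 + 10 * C0 * C2 * C3 with hA
  have hA0 : 0 < A := by positivity
  refine ⟨201 * A, by positivity, ?_⟩
  intro N p α χ hN hp hpN hχ S
  have hN1 : (1 : ℝ) ≤ N := by exact_mod_cast hN
  have hN0 : (0 : ℝ) < N := by linarith
  obtain ⟨hfin, hcard1, hcard2⟩ := hPNF N hN
  have hcardR : (N : ℝ) ≤ (Nat.card (PN N) : ℝ) := by exact_mod_cast hcard1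
  have hpsi : (N : ℝ) ≤ psi N := hcardR.trans hcard2
  have hpsi0 : 0 < psi N := by linarith
  have hUD : ((UD N).card : ℝ) = 2 ^ N.primeFactors.card := by
    rw [hUDC N hN]
    push_cast
    ring
  have hUD1 : (1 : ℝ) ≤ 2 ^ N.primeFactors.card := one_le_pow₀ (by norm_num)
  have hp2 : (2 : ℝ) ≤ p := by exact_mod_cast hp.two_le
  have hlp : Real.log 2 ≤ Real.log p := Real.log_le_log (by norm_num) hp2
  have hl2p : (1 : ℝ) / 2 < Real.log 2 := lt_trans (by norm_num) Real.log_two_gt_d9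
  have hlp0 : 0 < Real.log p := by linarith
  have hlN : 0 ≤ Real.log N := Real.log_nonneg hN1
  have hY1 : 1 ≤ (N : ℝ) ^ (1 / 200 : ℝ) := Real.one_le_rpow hN1 (by norm_num)
  have key : ∀ J : ℕ, (J : ℝ) ≤ Real.log N / (200 * Real.log p) →
      (∀ b ∈ S, Cusp N b ∧ EW N χ b ∧ (J = 0 ∨ ∀ n, Tl p b n = (α : ℂ) * b n)) →
      (Module.finrank ℂ S : ℝ) ≤ A * (psi N / 2 ^ N.primeFactors.card) * ((J : ℝ) + 1)⁻¹ := by
    intro J hJ hS
    have h1 := amdw_core hNRM hCOS hPNF hQDIF hQUNI hDIMK hC0 hC1 hC2 (J := J) (α := α) (χ := χ) hN hp hpN hY1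
      (fun b hb g z hz => hUB N b hN hb g z hz)
      (fun b hb hE hT z0 hz0 hnb => hAMPW N p J b α χ hN hp hpN hb hχ hE hT z0 hz0 hnb)
      (fun z hz hzY => hNBW N p J _ hN hp hpN hY1 z hz hzY)
      (by rw [hUD]; positivity) S hS
    rw [hUD] at h1
    exact amdw_opt hC0 hC1 hC2 hC3 hN hp rfl hpsi hJ hUD1 (hOMB N hN) h1
  refine ⟨fun hS => ?_, fun hS => ?_⟩
  · have h1 := key 0 (by rw [Nat.cast_zero]; positivity) fun b hb =>
      ⟨((hS b).1 hb).1, ((hS b).1 hb).2, Or.inl rfl⟩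
    rw [Nat.cast_zero, zero_add, inv_one, mul_one] at h1
    refine h1.trans ?_
    have h2 : 0 < A * (psi N / 2 ^ N.primeFactors.card) := by positivity
    linarith
  · set J : ℕ := ⌊Real.log N / (200 * Real.log p)⌋₊ with hJdef
    have hq0 : 0 ≤ Real.log N / (200 * Real.log p) := by positivity
    have hJR : (J : ℝ) ≤ Real.log N / (200 * Real.log p) := Nat.floor_le hq0
    have hJR2 : Real.log N / (200 * Real.log p) < J + 1 := Nat.lt_floor_add_one _
    have h1 := key J hJR fun b hb => ⟨((hS b).1 hb).1, ((hS b).1 hb).2.1, Or.inr ((hS b).1 hb).2.2⟩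
    obtain ⟨_, _, hl3, hl4⟩ := ampd_log N hN
    have hJ0 : (0 : ℝ) ≤ J := Nat.cast_nonneg J
    have hinv : ((J : ℝ) + 1)⁻¹ ≤ 201 * Real.log p / Real.log (N + 1) := by
      rw [inv_le_iff_one_le_mul₀ (by positivity), div_mul_eq_mul_div, le_div_iff₀ hl4]
      rw [div_lt_iff₀ (by positivity)] at hJR2
      nlinarith
    refine h1.trans ?_
    have h2 : 0 < A * (psi N / 2 ^ N.primeFactors.card) := by positivity
    have h3 := mul_le_mul_of_nonneg_left hinv h2.le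
    refine h3.trans (le_of_eq ?_)
    ring

end Pool.Agent.Helper96.MP
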