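import Pool.Agent.Helper96.MP.DefsB

/-! Block B: the basis of the space `VSp`, induction over the primes. -/

set_option autoImplicit false

namespace Pool.Agent.Helper96.MP

/-- functions whose sums over all members of a family of sets vanish -/
def kind_sm (P : Type) [Finite P] (C : Set (Set P)) : Submodule ℝ (P → ℝ) where
  carrier := {g | ∀ s ∈ C, ∑ᶠ x : s, g x.1 = 0}
  add_mem' := by
    intro g h hg hh s hs
    have h1 : ∑ᶠ x : s, (g + h) x.1 = ∑ᶠ x : s, g x.1 + ∑ᶠ x : s, h x.1 :=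
      finsum_add_distrib (Set.toFinite _) (Set.toFinite _)
    rw [h1, hg s hs, hh s hs, add_zero]
  zero_mem' := by
    intro s _
    exact finsum_eq_zero_of_forall_eq_zero (fun x => rfl)
  smul_mem' := by
    intro c g hg s hs
    have h1 : ∑ᶠ x : s, (c • g) x.1 = c • ∑ᶠ x : s, g x.1 :=
      (smul_finsum' c (Set.toFinite _)).symm
    rw [h1, hg s hs, smul_zero]

theorem kind_red_self {N : ℕ} (h : N ∣ N) (x : PN N) : pnf_red N h x = x := by
  have h1 := pnf_out_spec x
  exact h1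

/-- a fibre of the reduction of a product -/
theorem kind_fib (hRE : ST_RED) (hPR : ST_PRD) (A B A' B' : ℕ) (hA : A' ∣ A) (hB : B' ∣ B)
    (hA' : 1 ≤ A') (hB' : 1 ≤ B') (hco : Nat.Coprime A' B') (h1 : A ∣ A * B) (h2 : B ∣ A * B)
    (h : A' * B' ∣ A * B) (k1 : A' ∣ A' * B') (k2 : B' ∣ A' * B') (x : PN (A * B))
    (y : PN (A' * B')) :
    pnf_red (A' * B') h x = y ↔
      pnf_red A' hA (pnf_red A h1 x) = pnf_red A' k1 y ∧
      pnf_red B' hB (pnf_red B h2 x) = pnf_red B' k2 y := by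
  have e1 : pnf_red A' hA (pnf_red A h1 x) = pnf_red A' k1 (pnf_red (A' * B') h x) := by
    rw [hRE.2 (A * B) A A' h1 hA (hA.trans h1) x, hRE.2 (A * B) (A' * B') A' h k1 (hA.trans h1) x]
  have e2 : pnf_red B' hB (pnf_red B h2 x) = pnf_red B' k2 (pnf_red (A' * B') h x) := by
    rw [hRE.2 (A * B) B B' h2 hB (hB.trans h2) x, hRE.2 (A * B) (A' * B') B' h k2 (hB.trans h2) x]
  constructor
  · intro hx
    rw [e1, e2, hx]
    exact ⟨rfl, rfl⟩
  · rintro ⟨g1, g2⟩
    have hb := (hPR A' B' hA' hB' hco k1 k2).1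
    apply hb
    show (_, _) = (_, _)
    rw [← g1, ← g2, e1, e2]

/-- the condition in the first variable -/
theorem kind_first (hRE : ST_RED) (hPR : ST_PRD) (A B A' : ℕ) (hA : A' ∣ A)
    (hA1 : 1 ≤ A) (hB1 : 1 ≤ B) (hA' : 1 ≤ A') (hcA : Nat.Coprime A B) (hco : Nat.Coprime A' B)
    (h1 : A ∣ A * B) (h2 : B ∣ A * B) (g : PN A × PN B → ℝ) (M : ℕ) (hM : M = A' * B)
    (h : M ∣ A * B) :
    (∀ y : PN M, ∑ᶠ x : {x : PN (A * B) // pnf_red M h x = y},
      g (pnf_red A h1 x.1, pnf_red B h2 x.1) = 0) ↔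
    ∀ (b : PN B) (y : PN A'), ∑ᶠ a : {a : PN A // pnf_red A' hA a = y}, g (a.1, b) = 0 := by
  subst hM
  have k1 : A' ∣ A' * B := Dvd.intro _ rfl
  have k2 : B ∣ A' * B := Dvd.intro_left _ rfl
  have hbij := hPR A B hA1 hB1 hcA h1 h2
  have key : ∀ y : PN (A' * B), ∑ᶠ x : {x : PN (A * B) // pnf_red (A' * B) h x = y},
      g (pnf_red A h1 x.1, pnf_red B h2 x.1) =
      ∑ᶠ a : {a : PN A // pnf_red A' hA a = pnf_red A' k1 y}, g (a.1, pnf_red B k2 y) := by
    intro y
    have hf := kind_fib hRE hPR A B A' B hA dvd_rfl hA' hB1 hco h1 h2 h k1 k2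
    let e : {x : PN (A * B) // pnf_red (A' * B) h x = y} →
        {a : PN A // pnf_red A' hA a = pnf_red A' k1 y} :=
      fun x => ⟨pnf_red A h1 x.1, ((hf x.1 y).1 x.2).1⟩
    have hsec : ∀ x : {x : PN (A * B) // pnf_red (A' * B) h x = y},
        pnf_red B h2 x.1 = pnf_red B k2 y := by
      intro x
      have h3 := ((hf x.1 y).1 x.2).2
      rw [kind_red_self] at h3
      exact h3
    have he : Function.Bijective e := by
      constructor
      · intro x x' hxx
        have h4 : pnf_red A h1 x.1 = pnf_red A h1 x'.1 := congrArg Subtype.val hxx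
        apply Subtype.ext
        apply hbij.1
        show (_, _) = (_, _)
        rw [h4, hsec x, hsec x']
      · intro a
        obtain ⟨x, hx⟩ := hbij.2 (a.1, pnf_red B k2 y)
        have hx1 : pnf_red A h1 x = a.1 := congrArg Prod.fst hx
        have hx2 : pnf_red B h2 x = pnf_red B k2 y := congrArg Prod.snd hx
        refine ⟨⟨x, ?_⟩, ?_⟩
        · rw [hf x y, hx1, hx2, kind_red_self]
          exact ⟨a.2, rfl⟩
        · apply Subtype.ext
          exact hx1
    rw [← finsum_comp e he]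
    apply finsum_congr
    intro x
    rw [hsec x]
  constructor
  · intro hall b y
    obtain ⟨z, hz⟩ := (hPR A' B hA' hB1 hco k1 k2).2 (y, b)
    have hz1 : pnf_red A' k1 z = y := congrArg Prod.fst hz
    have hz2 : pnf_red B k2 z = b := congrArg Prod.snd hz
    have h5 := hall z
    rw [key z, hz1, hz2] at h5
    exact h5
  · intro hall y
    rw [key y]
    exact hall _ _

/-- the condition in the second variable -/
theorem kind_second (hRE : ST_RED) (hPR : ST_PRD) (A B B' : ℕ) (hB : B' ∣ B)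
    (hA1 : 1 ≤ A) (hB1 : 1 ≤ B) (hB' : 1 ≤ B') (hcA : Nat.Coprime A B) (hco : Nat.Coprime A B')
    (h1 : A ∣ A * B) (h2 : B ∣ A * B) (g : PN A × PN B → ℝ) (M : ℕ) (hM : M = A * B')
    (h : M ∣ A * B) :
    (∀ y : PN M, ∑ᶠ x : {x : PN (A * B) // pnf_red M h x = y},
      g (pnf_red A h1 x.1, pnf_red B h2 x.1) = 0) ↔
    ∀ (a : PN A) (y : PN B'), ∑ᶠ b : {b : PN B // pnf_red B' hB b = y}, g (a, b.1) = 0 := by
  subst hM
  have k1 : A ∣ A * B' := Dvd.intro _ rfl
  have k2 : B' ∣ A * B' := Dvd.intro_left _ rfl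
  have hbij := hPR A B hA1 hB1 hcA h1 h2
  have key : ∀ y : PN (A * B'), ∑ᶠ x : {x : PN (A * B) // pnf_red (A * B') h x = y},
      g (pnf_red A h1 x.1, pnf_red B h2 x.1) =
      ∑ᶠ b : {b : PN B // pnf_red B' hB b = pnf_red B' k2 y}, g (pnf_red A k1 y, b.1) := by
    intro y
    have hf := kind_fib hRE hPR A B A B' dvd_rfl hB hA1 hB' hco h1 h2 h k1 k2
    let e : {x : PN (A * B) // pnf_red (A * B') h x = y} →
        {b : PN B // pnf_red B' hB b = pnf_red B' k2 y} :=
      fun x => ⟨pnf_red B h2 x.1, ((hf x.1 y).1 x.2).2⟩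
    have hsec : ∀ x : {x : PN (A * B) // pnf_red (A * B') h x = y},
        pnf_red A h1 x.1 = pnf_red A k1 y := by
      intro x
      have h3 := ((hf x.1 y).1 x.2).1
      rw [kind_red_self] at h3
      exact h3
    have he : Function.Bijective e := by
      constructor
      · intro x x' hxx
        have h4 : pnf_red B h2 x.1 = pnf_red B h2 x'.1 := congrArg Subtype.val hxx
        apply Subtype.ext
        apply hbij.1
        show (_, _) = (_, _)
        rw [h4, hsec x, hsec x']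
      · intro b
        obtain ⟨x, hx⟩ := hbij.2 (pnf_red A k1 y, b.1)
        have hx1 : pnf_red A h1 x = pnf_red A k1 y := congrArg Prod.fst hx
        have hx2 : pnf_red B h2 x = b.1 := congrArg Prod.snd hx
        refine ⟨⟨x, ?_⟩, ?_⟩
        · rw [hf x y, hx1, hx2, kind_red_self]
          exact ⟨rfl, b.2⟩
        · apply Subtype.ext
          exact hx2
    rw [← finsum_comp e he]
    apply finsum_congr
    intro x
    rw [hsec x]
  constructor
  · intro hall a y
    obtain ⟨z, hz⟩ := (hPR A B' hA1 hB' hco k1 k2).2 (a, y)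
    have hz1 : pnf_red A k1 z = a := congrArg Prod.fst hz
    have hz2 : pnf_red B' k2 z = y := congrArg Prod.snd hz
    have h5 := hall z
    rw [key z, hz1, hz2] at h5
    exact h5
  · intro hall y
    rw [key y]
    exact hall _ _

theorem st_KIND (hKP : ST_KPROD) (hKF : ST_KFIB) (hKE : ST_KEQ) (hPR : ST_PRD) (hRE : ST_RED)
    (hFC : ST_FIBC) : ST_KIND := by
  intro N S
  induction S using Finset.induction_on generalizing N with
  | empty =>
    intro _ hN hS V hV
    have hVt : V = ⊤ := by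
      rw [eq_top_iff]
      intro g _
      rw [hV g]
      intro q hq
      exact absurd hq (Finset.notMem_empty q)
    refine ⟨Fintype.card (PN N), 1, ?_, le_rfl, ?_, ?_⟩
    · rw [hVt]
      exact hKE.1 (PN N)
    · rw [Nat.card_eq_fintype_card]
      simp
    · simp
  | insert q S' hqS ih =>
    intro _ hN hS V hV
    obtain ⟨hq, hqN⟩ := hS q (Finset.mem_insert_self q S')
    obtain ⟨e', B, hqB, hNe⟩ := Nat.exists_eq_pow_mul_and_not_dvd (show N ≠ 0 by omega) q hq.ne_one
    obtain ⟨e, rfl⟩ : ∃ e, e' = e + 1 := by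
      rcases e' with _ | e
      · exfalso
        rw [pow_zero, one_mul] at hNe
        rw [hNe] at hqN
        exact hqB hqN
      · exact ⟨e, rfl⟩
    obtain ⟨A, hAdef⟩ : ∃ A : ℕ, A = q ^ (e + 1) := ⟨_, rfl⟩
    rw [← hAdef] at hNe
    subst hNe
    have hA1 : 1 ≤ A := by
      rw [hAdef]
      exact Nat.one_le_pow _ _ hq.pos
    have hB1 : 1 ≤ B := by
      rcases Nat.eq_zero_or_pos B with h | h
      · rw [h] at hqB
        exact absurd (dvd_zero q) hqB
      · exact h
    have hcqB : Nat.Coprime q B := (Nat.Prime.coprime_iff_not_dvd hq).2 hqB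
    have hcA : Nat.Coprime A B := by
      rw [hAdef]
      exact Nat.Coprime.pow_left _ hcqB
    have hco : Nat.Coprime (q ^ e) B := Nat.Coprime.pow_left _ hcqB
    have h1 : A ∣ A * B := Dvd.intro _ rfl
    have h2 : B ∣ A * B := Dvd.intro_left _ rfl
    have hqe : q ^ e ∣ A := by
      rw [hAdef]
      exact pow_dvd_pow q (Nat.le_succ e)
    have hqe1 : 1 ≤ q ^ e := Nat.one_le_pow _ _ hq.pos
    have : Finite (PN A) := pnf_finite A hA1
    have : Finite (PN B) := pnf_finite B hB1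
    have : Finite (PN (q ^ e)) := pnf_finite (q ^ e) hqe1
    let _ : Fintype (PN A) := Fintype.ofFinite _
    let _ : Fintype (PN B) := Fintype.ofFinite _
    let _ : Fintype (PN (q ^ e)) := Fintype.ofFinite _
    have hSB : ∀ t ∈ S', t.Prime ∧ t ∣ B := by
      intro t ht
      obtain ⟨htp, htN⟩ := hS t (Finset.mem_insert_of_mem ht)
      refine ⟨htp, ?_⟩
      have hne : t ≠ q := fun h => hqS (h ▸ ht)
      rcases (Nat.Prime.dvd_mul htp).1 htN with h | h
      · rw [hAdef] at h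
        exact absurd ((Nat.prime_dvd_prime_iff_eq htp hq).1 (htp.dvd_of_dvd_pow h)) hne
      · exact h
    -- the two spaces
    let V1 : Submodule ℝ (PN A → ℝ) :=
      kind_sm (PN A) {s | ∃ y : PN (q ^ e), s = {x | pnf_red (q ^ e) hqe x = y}}
    have hV1 : ∀ g, g ∈ V1 ↔ ∀ y, ∑ᶠ x : {x // pnf_red (q ^ e) hqe x = y}, g x.1 = 0 := by
      intro g
      constructor
      · intro h y
        exact h _ ⟨y, rfl⟩
      · rintro h s ⟨y, rfl⟩
        exact h y
    let V2 : Submodule ℝ (PN B → ℝ) :=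
      kind_sm (PN B) {s | ∃ t ∈ S', t ∣ B ∧ ∃ (h : B / t ∣ B) (y : PN (B / t)),
        s = {x | pnf_red (B / t) h x = y}}
    have hV2 : ∀ g, g ∈ V2 ↔ VSp B S' g := by
      intro g
      constructor
      · intro h t ht htB h' y
        exact h _ ⟨t, ht, htB, h', y, rfl⟩
      · rintro h s ⟨t, ht, htB, h', y, rfl⟩
        exact h t ht htB h' y
    obtain ⟨r2, D2, hL2, hD2, hr2, hlog2⟩ := ih B hB1 hSB V2 hV2
    have hfc : ∀ y : PN (q ^ e), q ≤ Nat.card {x : PN A // pnf_red (q ^ e) hqe x = y} ∧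
        Nat.card {x : PN A // pnf_red (q ^ e) hqe x = y} ≤ q + 1 := by
      subst hAdef
      intro y
      exact hFC q e hq hqe y
    obtain ⟨r1, D1, hL1, hD1, hr1, hlog1⟩ := hKF (PN A) (PN (q ^ e)) (pnf_red (q ^ e) hqe) q
      hq.two_le hfc V1 hV1
    let U : Submodule ℝ (PN A × PN B → ℝ) :=
      (⨅ y : PN B, V1.comap (LinearMap.funLeft ℝ ℝ (fun x : PN A => (x, y)))) ⊓
      (⨅ x : PN A, V2.comap (LinearMap.funLeft ℝ ℝ (fun y : PN B => (x, y))))
    have hU : ∀ g, g ∈ U ↔ (∀ y, (fun x => g (x, y)) ∈ V1) ∧ (∀ x, (fun y => g (x, y)) ∈ V2) := by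
      intro g
      constructor
      · intro hg
        obtain ⟨g1, g2⟩ := Submodule.mem_inf.1 hg
        exact ⟨fun y => (Submodule.mem_iInf _).1 g1 y, fun x => (Submodule.mem_iInf _).1 g2 x⟩
      · rintro ⟨g1, g2⟩
        exact Submodule.mem_inf.2 ⟨(Submodule.mem_iInf _).2 fun y => g1 y,
          (Submodule.mem_iInf _).2 fun x => g2 x⟩
    have hLU := hKP (PN A) (PN B) V1 V2 r1 r2 D1 D2 hL1 hL2 hD1 hD2 U hU
    let φ : PN (A * B) ≃ PN A × PN B :=
      Equiv.ofBijective (fun x => (pnf_red A h1 x, pnf_red B h2 x)) (hPR A B hA1 hB1 hcA h1 h2)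
    have hφ : ∀ x, φ x = (pnf_red A h1 x, pnf_red B h2 x) := fun x => rfl
    have hUV : ∀ g : PN A × PN B → ℝ, g ∈ U ↔ (fun x => g (φ x)) ∈ V := by
      intro g
      rw [hU g, hV]
      have hMq : A * B / q = q ^ e * B := by
        rw [hAdef, pow_succ]
        rw [show q ^ e * q * B = q ^ e * B * q by ring]
        exact Nat.mul_div_cancel _ hq.pos
      constructor
      · rintro ⟨g1, g2⟩ t ht htN h y
        rcases Finset.mem_insert.1 ht with rfl | ht'
        · have h3 := (kind_first hRE hPR A B (t ^ e) hqe hA1 hB1 hqe1 hcA hco h1 h2 g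
            (A * B / t) hMq h).2 (fun b y => (hV1 _).1 (g1 b) y) y
          exact h3
        · obtain ⟨htp, htB⟩ := hSB t ht'
          have hMt : A * B / t = A * (B / t) := Nat.mul_div_assoc A htB
          have hBt : B / t ∣ B := Nat.div_dvd_of_dvd htB
          have hBt1 : 1 ≤ B / t := Nat.div_pos (Nat.le_of_dvd hB1 htB) htp.pos
          have h3 := (kind_second hRE hPR A B (B / t) hBt hA1 hB1 hBt1 hcA
            (hcA.coprime_dvd_right hBt) h1 h2 g (A * B / t) hMt h).2
            (fun a y => (hV2 _).1 (g2 a) t ht' htB hBt y) y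
          exact h3
      · intro hg
        refine ⟨fun b => (hV1 _).2 ?_, fun a => (hV2 _).2 ?_⟩
        · have hdq : A * B / q ∣ A * B := Nat.div_dvd_of_dvd hqN
          exact (kind_first hRE hPR A B (q ^ e) hqe hA1 hB1 hqe1 hcA hco h1 h2 g
            (A * B / q) hMq hdq).1 (fun y => hg q (Finset.mem_insert_self _ _) hqN hdq y) b
        · intro t ht htB hBt y
          obtain ⟨htp, _⟩ := hSB t ht
          have hMt : A * B / t = A * (B / t) := Nat.mul_div_assoc A htB
          have hBt1 : 1 ≤ B / t := Nat.div_pos (Nat.le_of_dvd hB1 htB) htp.pos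
          have htN : t ∣ A * B := htB.trans h2
          have hdt : A * B / t ∣ A * B := Nat.div_dvd_of_dvd htN
          exact (kind_second hRE hPR A B (B / t) hBt hA1 hB1 hBt1 hcA
            (hcA.coprime_dvd_right hBt) h1 h2 g (A * B / t) hMt hdt).1
            (fun y => hg t (Finset.mem_insert_of_mem ht) htN hdt y) a y
    have hfin := hKE.2 (PN (A * B)) (PN A × PN B) φ V U (r1 * r2) (D1 ^ r2 * D2 ^ r1) hUV hLU
    have hcard : (Nat.card (PN (A * B)) : ℝ) = (Fintype.card (PN A) : ℝ) * (Nat.card (PN B) : ℝ) := by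
      rw [Nat.card_congr φ, Nat.card_prod, Nat.cast_mul, Nat.card_eq_fintype_card]
    have hq1 : (0 : ℝ) ≤ 1 - 1 / ((q : ℝ) + 1) := by
      have hq0 : (0 : ℝ) ≤ (q : ℝ) := Nat.cast_nonneg q
      have h3 : 1 / ((q : ℝ) + 1) ≤ 1 := by
        rw [div_le_one (by linarith)]
        linarith
      linarith
    have hr2' : (0 : ℝ) ≤ (r2 : ℝ) := Nat.cast_nonneg _
    have hr1' : (0 : ℝ) ≤ (r1 : ℝ) := Nat.cast_nonneg _
    have hl1 : 0 ≤ Real.log D1 := Real.log_nonneg hD1
    have hl2 : 0 ≤ Real.log D2 := Real.log_nonneg hD2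
    have hX : 0 ≤ (Fintype.card (PN A) : ℝ) * (1 - 1 / ((q : ℝ) + 1)) :=
      mul_nonneg (Nat.cast_nonneg _) hq1
    refine ⟨r1 * r2, D1 ^ r2 * D2 ^ r1, hfin, ?_, ?_, ?_⟩
    · exact one_le_mul_of_one_le_of_one_le (one_le_pow₀ hD1) (one_le_pow₀ hD2)
    · rw [Finset.prod_insert hqS, hcard, Nat.cast_mul]
      calc (r1 : ℝ) * r2 ≤ ((Fintype.card (PN A) : ℝ) * (1 - 1 / ((q : ℝ) + 1))) *
            ((Nat.card (PN B) : ℝ) * ∏ q ∈ S', (1 - 1 / ((q : ℝ) + 1))) :=
            mul_le_mul hr1 hr2 hr2' hX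
        _ = _ := by ring
    · have hlogD : Real.log (D1 ^ r2 * D2 ^ r1) = r2 * Real.log D1 + r1 * Real.log D2 := by
        rw [Real.log_mul (pow_ne_zero _ (by linarith)) (pow_ne_zero _ (by linarith)),
          Real.log_pow, Real.log_pow]
      rw [hlogD, Finset.sum_insert hqS, Finset.erase_insert hqS, hcard]
      have hsum : ∑ t ∈ S', Real.log ((t : ℝ) + 1) / t *
          ∏ u ∈ (insert q S').erase t, (1 - 1 / ((u : ℝ) + 1)) =
          (1 - 1 / ((q : ℝ) + 1)) * ∑ t ∈ S', Real.log ((t : ℝ) + 1) / t *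
          ∏ u ∈ S'.erase t, (1 - 1 / ((u : ℝ) + 1)) := by
        rw [Finset.mul_sum]
        apply Finset.sum_congr rfl
        intro t ht
        have hne : q ≠ t := fun h => hqS (h ▸ ht)
        rw [Finset.erase_insert_of_ne hne, Finset.prod_insert]
        · ring
        · intro h
          exact hqS (Finset.mem_of_mem_erase h)
      rw [hsum]
      have t1 : (r2 : ℝ) * Real.log D1 ≤
          ((Nat.card (PN B) : ℝ) * ∏ q ∈ S', (1 - 1 / ((q : ℝ) + 1))) *
          ((Fintype.card (PN A) : ℝ) * (Real.log ((q : ℝ) + 1) / q)) :=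
        mul_le_mul hr2 hlog1 hl1 (hr2'.trans hr2)
      have t2 : (r1 : ℝ) * Real.log D2 ≤
          ((Fintype.card (PN A) : ℝ) * (1 - 1 / ((q : ℝ) + 1))) *
          ((Nat.card (PN B) : ℝ) * ∑ q ∈ S', Real.log ((q : ℝ) + 1) / q *
            ∏ t ∈ S'.erase q, (1 - 1 / ((t : ℝ) + 1))) :=
        mul_le_mul hr1 hlog2 hl2 hX
      calc (r2 : ℝ) * Real.log D1 + r1 * Real.log D2 ≤ _ := add_le_add t1 t2
        _ = _ := by ring

end Pool.Agent.Helper96.MP
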