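import Pool.Agent.Helper96.MP.Defs

set_option autoImplicit false

namespace Pool.Agent.Helper96.MP

open Complex MeasureTheory Filter Topology
open scoped MatrixGroups

/-! ### rows -/

section rows

variable {N : ℕ}

open Classical in
/-- indicator row of a class -/
noncomputable def tot_dl (N : ℕ) (c d : ℤ) (x : PN N) : ℤ :=
  if ∃ h : Uni N c d, x = Quotient.mk (sPN N) ⟨(c, d), h⟩ then 1 else 0

theorem tot_dl_ev [Fintype (PN N)] (c d : ℤ) (v : PN N → ℝ) :
    ∑ x, (tot_dl N c d x : ℝ) * v x = ev v c d := by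
  classical
  unfold ev
  by_cases h : Uni N c d
  · rw [dif_pos h]
    refine (Finset.sum_eq_single (ι := PN N) (Quotient.mk (sPN N) ⟨(c, d), h⟩) ?_ ?_).trans ?_
    · intro b _ hb
      have : tot_dl N c d b = 0 := by
        unfold tot_dl
        rw [if_neg]
        rintro ⟨h', hx⟩
        exact hb hx
      rw [this]
      simp
    · intro h'
      exact absurd (Finset.mem_univ _) h'
    · have : tot_dl N c d (Quotient.mk (sPN N) ⟨(c, d), h⟩) = 1 := by
        unfold tot_dl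
        rw [if_pos ⟨h, rfl⟩]
      rw [this, Int.cast_one, one_mul]
  · rw [dif_neg h]
    refine Finset.sum_eq_zero fun x _ => ?_
    have : tot_dl N c d x = 0 := by
      unfold tot_dl
      rw [if_neg]
      rintro ⟨h', hx⟩
      exact h h'
    rw [this]
    simp

/-- `L¹` norm of a row -/
noncomputable def tot_l1 [Fintype (PN N)] (r : PN N → ℤ) : ℝ := ∑ x, |(r x : ℝ)|

theorem tot_l1_dl [Fintype (PN N)] (c d : ℤ) : tot_l1 (tot_dl N c d) ≤ 1 := by
  classical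
  have h1 : tot_l1 (tot_dl N c d) = ∑ x, (tot_dl N c d x : ℝ) * (fun _ => (1 : ℝ)) x := by
    unfold tot_l1
    refine Finset.sum_congr rfl fun x _ => ?_
    unfold tot_dl
    split_ifs <;> simp
  rw [h1, tot_dl_ev]
  unfold ev
  split_ifs <;> norm_num

theorem tot_l1_add [Fintype (PN N)] (r s : PN N → ℤ) :
    tot_l1 (fun x => r x + s x) ≤ tot_l1 r + tot_l1 s := by
  unfold tot_l1
  rw [← Finset.sum_add_distrib]
  refine Finset.sum_le_sum fun x _ => ?_
  push_cast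
  exact abs_add_le _ _

theorem tot_l1_mul [Fintype (PN N)] (k : ℤ) (r : PN N → ℤ) :
    tot_l1 (fun x => k * r x) = |(k : ℝ)| * tot_l1 r := by
  unfold tot_l1
  rw [Finset.mul_sum]
  refine Finset.sum_congr rfl fun x _ => ?_
  push_cast
  rw [abs_mul]

theorem tot_l1_nonneg [Fintype (PN N)] (r : PN N → ℤ) : 0 ≤ tot_l1 r :=
  Finset.sum_nonneg fun _ _ => abs_nonneg _

theorem tot_l1_sum [Fintype (PN N)] {ι : Type} (s : Finset ι) (r : ι → PN N → ℤ)
    (h : ∀ i ∈ s, tot_l1 (r i) ≤ 1) : tot_l1 (fun x => ∑ i ∈ s, r i x) ≤ s.card := by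
  unfold tot_l1
  calc ∑ x, |((∑ i ∈ s, r i x : ℤ) : ℝ)| ≤ ∑ x, ∑ i ∈ s, |(r i x : ℝ)| := by
        refine Finset.sum_le_sum fun x _ => ?_
        push_cast
        exact Finset.abs_sum_le_sum_abs _ _
    _ = ∑ i ∈ s, ∑ x, |(r i x : ℝ)| := Finset.sum_comm
    _ ≤ ∑ i ∈ s, (1 : ℝ) := Finset.sum_le_sum h
    _ = s.card := by simp

/-- the row of the Hecke relation -/
noncomputable def tot_H (N n : ℕ) (α : ℤ) (c d : ℤ) (x : PN N) : ℤ :=
  ∑ m ∈ Sn n, tot_dl N (c * m.1 + d * m.2.2.1) (c * m.2.1 + d * m.2.2.2) x +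
    (-α) * tot_dl N c d x

theorem tot_H_ev [Fintype (PN N)] (n : ℕ) (α : ℤ) (c d : ℤ) (v : PN N → ℝ) :
    ∑ x, (tot_H N n α c d x : ℝ) * v x =
      ∑ m ∈ Sn n, ev v (c * m.1 + d * m.2.2.1) (c * m.2.1 + d * m.2.2.2) - α * ev v c d := by
  have h1 : ∀ x, (tot_H N n α c d x : ℝ) * v x =
      ∑ m ∈ Sn n, (tot_dl N (c * m.1 + d * m.2.2.1) (c * m.2.1 + d * m.2.2.2) x : ℝ) * v x -
        α * ((tot_dl N c d x : ℝ) * v x) := by
    intro x
    unfold tot_H
    push_cast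
    rw [add_mul, Finset.sum_mul]
    ring
  simp only [h1]
  rw [Finset.sum_sub_distrib, Finset.sum_comm, ← Finset.mul_sum, tot_dl_ev]
  congr 1
  exact Finset.sum_congr rfl fun m _ => tot_dl_ev _ _ v

theorem tot_H_l1 [Fintype (PN N)] (n : ℕ) (α : ℤ) (c d : ℤ) :
    tot_l1 (tot_H N n α c d) ≤ (Sn n).card + |(α : ℝ)| := by
  refine (tot_l1_add _ _).trans (add_le_add ?_ ?_)
  · exact tot_l1_sum (Sn n) _ fun m _ => tot_l1_dl _ _
  · rw [tot_l1_mul]
    push_cast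
    rw [abs_neg]
    calc |(α : ℝ)| * tot_l1 (tot_dl N c d) ≤ |(α : ℝ)| * 1 :=
          mul_le_mul_of_nonneg_left (tot_l1_dl c d) (abs_nonneg _)
      _ = |(α : ℝ)| := mul_one _

/-- the rows of the Manin relations -/
def tot_R0 (N : ℕ) (ε : ℤ) : Set (PN N → ℤ) :=
  {r | ∃ c d : ℤ, Uni N c d ∧ (r = (fun x => tot_dl N c d x + tot_dl N d (-c) x) ∨
    r = (fun x => (tot_dl N c d x + tot_dl N (c + d) (-c) x) + tot_dl N d (-c - d) x) ∨
    r = (fun x => tot_dl N (-c) d x + (-ε) * tot_dl N c d x))}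

theorem tot_R0_iff [Fintype (PN N)] (ε : ℤ) (v : PN N → ℝ) :
    (∀ r ∈ tot_R0 N ε, ∑ x, (r x : ℝ) * v x = 0) ↔ Rel N ε v := by
  have e2 : ∀ c d : ℤ, ∑ x, (((tot_dl N c d x + tot_dl N d (-c) x : ℤ)) : ℝ) * v x =
      ev v c d + ev v d (-c) := by
    intro c d
    push_cast
    simp only [add_mul]
    rw [Finset.sum_add_distrib, tot_dl_ev, tot_dl_ev]
  have e3 : ∀ c d : ℤ, ∑ x, ((((tot_dl N c d x + tot_dl N (c + d) (-c) x) +
      tot_dl N d (-c - d) x : ℤ)) : ℝ) * v x =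
      ev v c d + ev v (c + d) (-c) + ev v d (-c - d) := by
    intro c d
    push_cast
    simp only [add_mul]
    rw [Finset.sum_add_distrib, Finset.sum_add_distrib, tot_dl_ev, tot_dl_ev, tot_dl_ev]
  have e1 : ∀ c d : ℤ, ∑ x, (((tot_dl N (-c) d x + (-ε) * tot_dl N c d x : ℤ)) : ℝ) * v x =
      ev v (-c) d - ε * ev v c d := by
    intro c d
    push_cast
    simp only [add_mul, mul_assoc]
    rw [Finset.sum_add_distrib, tot_dl_ev, ← Finset.mul_sum, tot_dl_ev]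
    ring
  constructor
  · intro h
    refine ⟨fun c d hu => ?_, fun c d hu => ?_, fun c d hu => ?_⟩
    · rw [← e2]
      exact h _ ⟨c, d, hu, Or.inl rfl⟩
    · rw [← e3]
      exact h _ ⟨c, d, hu, Or.inr (Or.inl rfl)⟩
    · have := h _ ⟨c, d, hu, Or.inr (Or.inr rfl)⟩
      rw [e1] at this
      linarith
  · rintro ⟨h1, h2, h3⟩ r ⟨c, d, hu, hr | hr | hr⟩
    · rw [hr, e2]
      exact h1 c d hu
    · rw [hr, e3]
      exact h2 c d hu
    · rw [hr, e1, h3 c d hu]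
      ring

theorem tot_R0_l1 [Fintype (PN N)] (ε : ℤ) (hε : ε = 1 ∨ ε = -1) :
    ∀ r ∈ tot_R0 N ε, tot_l1 r ≤ 3 := by
  rintro r ⟨c, d, hu, hr | hr | hr⟩
  · rw [hr]
    have := tot_l1_add (tot_dl N c d) (tot_dl N d (-c))
    linarith [tot_l1_dl (N := N) c d, tot_l1_dl (N := N) d (-c)]
  · rw [hr]
    have h1 := tot_l1_add (fun x => tot_dl N c d x + tot_dl N (c + d) (-c) x)
      (tot_dl N d (-c - d))
    have h2 := tot_l1_add (tot_dl N c d) (tot_dl N (c + d) (-c))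
    linarith [tot_l1_dl (N := N) c d, tot_l1_dl (N := N) (c + d) (-c),
      tot_l1_dl (N := N) d (-c - d)]
  · rw [hr]
    have h1 := tot_l1_add (tot_dl N (-c) d) (fun x => (-ε) * tot_dl N c d x)
    rw [tot_l1_mul] at h1
    have h2 : |(((-ε : ℤ)) : ℝ)| = 1 := by
      rcases hε with rfl | rfl <;> norm_num
    rw [h2, one_mul] at h1
    linarith [tot_l1_dl (N := N) c d, tot_l1_dl (N := N) (-c) d]

/-- the rows of the Hecke relations for `l ≤ X` -/
def tot_R1 (N : ℕ) (a : ℕ → ℤ) (X : ℕ) : Set (PN N → ℤ) :=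
  {r | ∃ l : ℕ, l.Prime ∧ ¬ l ∣ N ∧ l ≤ X ∧ l ≤ N ^ 6 ∧ ∃ c d : ℤ, Uni N c d ∧
    (r = tot_H N l (a l) c d ∨ r = tot_H N (l ^ 2) ((a l) ^ 2 - l) c d)}

theorem tot_R1_iff [Fintype (PN N)] (a : ℕ → ℤ) (X : ℕ) (v : PN N → ℝ) :
    (∀ r ∈ tot_R1 N a X, ∑ x, (r x : ℝ) * v x = 0) ↔
      ∀ l : ℕ, l.Prime → ¬ l ∣ N → l ≤ X → l ≤ N ^ 6 →
        HRow N l (a l) v ∧ HRow N (l ^ 2) ((a l : ℝ) ^ 2 - l) v := by
  constructor
  · intro h l hl hlN hlX hl6
    refine ⟨fun c d hu => ?_, fun c d hu => ?_⟩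
    · have := h _ ⟨l, hl, hlN, hlX, hl6, c, d, hu, Or.inl rfl⟩
      rw [tot_H_ev] at this
      linarith
    · have := h _ ⟨l, hl, hlN, hlX, hl6, c, d, hu, Or.inr rfl⟩
      rw [tot_H_ev] at this
      push_cast at this
      linarith
  · rintro h r ⟨l, hl, hlN, hlX, hl6, c, d, hu, hr | hr⟩
    · rw [hr, tot_H_ev, (h l hl hlN hlX hl6).1 c d hu]
      ring
    · rw [hr, tot_H_ev, (h l hl hlN hlX hl6).2 c d hu]
      push_cast
      ring

theorem tot_R1_l1 [Fintype (PN N)] (Cs : ℝ) (hCs : 0 < Cs)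
    (hS : ∀ n : ℕ, 1 ≤ n → ((Sn n).card : ℝ) ≤ Cs * (n : ℝ) ^ (9 / 8 : ℝ)) (a : ℕ → ℤ)
    (ha : ∀ l : ℕ, l.Prime → ¬ l ∣ N → |a l| ≤ l + 1) (j : ℕ) :
    ∀ r ∈ tot_R1 N a (2 ^ j), tot_l1 r ≤ (Cs + 5) * 8 ^ j := by
  rintro r ⟨l, hl, hlN, hlX, hl6, c, d, hu, hr⟩
  have hl2 : (2 : ℝ) ≤ l := by exact_mod_cast hl.two_le
  have hlj : (l : ℝ) ≤ 2 ^ j := by exact_mod_cast hlX
  have h8 : (l : ℝ) ^ 3 ≤ 8 ^ j := by
    calc (l : ℝ) ^ 3 ≤ (2 ^ j) ^ 3 := by gcongr
      _ = 8 ^ j := by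
        rw [← pow_mul, mul_comm, pow_mul]
        norm_num
  have haR : |(a l : ℝ)| ≤ l + 1 := by exact_mod_cast ha l hl hlN
  have hpow1 : ((l : ℕ) : ℝ) ^ (9 / 8 : ℝ) ≤ (l : ℝ) ^ 3 := by
    rw [← Real.rpow_natCast]
    exact Real.rpow_le_rpow_of_exponent_le (by linarith) (by norm_num)
  have hpow2 : (((l ^ 2 : ℕ)) : ℝ) ^ (9 / 8 : ℝ) ≤ (l : ℝ) ^ 3 := by
    push_cast
    rw [← Real.rpow_natCast, ← Real.rpow_natCast, ← Real.rpow_mul (by linarith)]
    exact Real.rpow_le_rpow_of_exponent_le (by linarith) (by norm_num)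
  have hl3 : 5 * (l : ℝ) ^ 2 ≤ 5 * (l : ℝ) ^ 3 := by nlinarith [sq_nonneg (l : ℝ)]
  rcases hr with hr | hr
  · rw [hr]
    refine (tot_H_l1 _ _ _ _).trans ?_
    have h1 := hS l hl.one_lt.le
    have h2 : Cs * (l : ℝ) ^ (9 / 8 : ℝ) ≤ Cs * 8 ^ j :=
      mul_le_mul_of_nonneg_left (hpow1.trans h8) hCs.le
    have h3 : |(a l : ℝ)| ≤ 5 * 8 ^ j := by
      nlinarith
    linarith
  · rw [hr]
    refine (tot_H_l1 _ _ _ _).trans ?_
    have h1 := hS (l ^ 2) (Nat.one_le_pow _ _ hl.pos)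
    have h2 : Cs * (((l ^ 2 : ℕ)) : ℝ) ^ (9 / 8 : ℝ) ≤ Cs * 8 ^ j :=
      mul_le_mul_of_nonneg_left (hpow2.trans h8) hCs.le
    have h3 : |(((a l) ^ 2 - l : ℤ) : ℝ)| ≤ 5 * 8 ^ j := by
      push_cast
      have h4 : (a l : ℝ) ^ 2 ≤ ((l : ℝ) + 1) ^ 2 := by
        rw [← sq_abs]
        gcongr
      have h5 : 0 ≤ (a l : ℝ) ^ 2 := sq_nonneg _
      rw [abs_le]
      constructor <;> nlinarith
    linarith

end rows

/-! ### summation -/

theorem tot_abel (D : ℕ → ℕ) (hD : Antitone D) (J : ℕ) :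
    ∑ j ∈ Finset.range J, (j + 1) * (D j - D (j + 1)) + J * D J = ∑ j ∈ Finset.range J, D j := by
  induction J with
  | zero => simp
  | succ J ih =>
    rw [Finset.sum_range_succ, Finset.sum_range_succ, ← ih]
    have h : D (J + 1) ≤ D J := hD (Nat.le_succ J)
    obtain ⟨e, he⟩ := Nat.exists_eq_add_of_le h
    rw [he, Nat.add_sub_cancel_left]
    ring

/-- numerical part of the total estimate -/
theorem tot_num (Cd : ℝ) (hCd : 1 ≤ Cd) : ∃ K : ℝ, 0 < K ∧ ∀ (N w p : ℕ) (D : ℕ → ℕ), 1 ≤ N →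
    Antitone D → D 0 ≤ p →
    (∀ j : ℕ, 1 ≤ j → (4 : ℝ) ^ (20 * j) ≤ N → Cd * ((w : ℝ) + 1) ^ 2 ≤ 2 ^ j →
      (D (j + 1) : ℝ) ≤ Cd * p * (2 : ℝ) ^ (-(j : ℝ) / 4)) →
    ∃ J : ℕ, N ^ 6 ≤ 2 ^ (J - 1) ∧ 2 ≤ J ∧
      ((∑ j ∈ Finset.range J, D j : ℕ) : ℝ) ≤ K * p * Real.log (2 + w) := by
  set q : ℝ := (2 : ℝ) ^ (-(1 : ℝ) / 960) with hq
  have hq0 : 0 < q := Real.rpow_pos_of_pos (by norm_num) _
  have hq1 : q < 1 := Real.rpow_lt_one_of_one_lt_of_neg (by norm_num) (by norm_num)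
  have hlog2 : 0 < Real.log 2 := Real.log_pos (by norm_num)
  set A : ℝ := Real.logb 2 Cd + 4 with hA
  have hA0 : 4 ≤ A := by
    have : 0 ≤ Real.logb 2 Cd := Real.logb_nonneg (by norm_num) hCd
    linarith
  refine ⟨(240 * A + 1 + 4 * Cd * (1 - q)⁻¹ + 1) / Real.log 2, ?_, ?_⟩
  · have : 0 < (1 - q)⁻¹ := inv_pos.2 (by linarith)
    positivity
  intro N w p D hN hD hD0 hdim
  -- the first index
  set j0 : ℕ := ⌈Real.logb 2 (Cd * ((w : ℝ) + 1) ^ 2)⌉₊ + 1 with hj0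
  have hw1 : (1 : ℝ) ≤ (w : ℝ) + 1 := by
    have : (0 : ℝ) ≤ w := Nat.cast_nonneg w
    linarith
  have hX1 : 1 ≤ Cd * ((w : ℝ) + 1) ^ 2 := by
    have : 1 ≤ ((w : ℝ) + 1) ^ 2 := one_le_pow₀ hw1
    nlinarith
  have hj0pow : Cd * ((w : ℝ) + 1) ^ 2 ≤ 2 ^ j0 := by
    have h1 : Real.logb 2 (Cd * ((w : ℝ) + 1) ^ 2) ≤ (j0 : ℝ) := by
      rw [hj0]
      push_cast
      linarith [Nat.le_ceil (Real.logb 2 (Cd * ((w : ℝ) + 1) ^ 2))]
    have h2 := (Real.logb_le_iff_le_rpow (by norm_num) (by linarith)).1 h1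
    rwa [Real.rpow_natCast] at h2
  have hL : Real.log 2 ≤ Real.log (2 + w) :=
    Real.log_le_log (by norm_num) (by
      have : (0 : ℝ) ≤ w := Nat.cast_nonneg w
      linarith)
  have hj0le : (j0 : ℝ) ≤ A * (Real.log (2 + w) / Real.log 2) := by
    have h1 : 0 ≤ Real.logb 2 (Cd * ((w : ℝ) + 1) ^ 2) := Real.logb_nonneg (by norm_num) hX1
    have h2 := (Nat.ceil_lt_add_one h1).le
    have h3 : Real.logb 2 (Cd * ((w : ℝ) + 1) ^ 2) =
        Real.logb 2 Cd + 2 * Real.logb 2 ((w : ℝ) + 1) := by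
      rw [Real.logb_mul (by linarith) (by positivity), Real.logb_pow]
      norm_num
    have h4 : Real.logb 2 ((w : ℝ) + 1) ≤ Real.log (2 + w) / Real.log 2 := by
      unfold Real.logb
      refine div_le_div_of_nonneg_right ?_ hlog2.le
      exact Real.log_le_log (by linarith) (by linarith)
    have h5 : 1 ≤ Real.log (2 + w) / Real.log 2 := by
      rw [le_div_iff₀ hlog2]
      linarith
    have h6 : (j0 : ℝ) ≤ Real.logb 2 Cd + 2 * Real.logb 2 ((w : ℝ) + 1) + 2 := by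
      rw [hj0]
      push_cast
      linarith
    have h7 : 0 ≤ Real.logb 2 Cd := Real.logb_nonneg (by norm_num) hCd
    rw [hA]
    nlinarith
  have hLd : 1 ≤ Real.log (2 + w) / Real.log 2 := by
    rw [le_div_iff₀ hlog2]
    linarith
  -- the second index
  set j1 : ℕ := Nat.log (4 ^ 20) N with hj1
  have hj1a : (4 ^ 20) ^ j1 ≤ N := Nat.pow_log_le_self _ (by omega)
  have hj1b : N < (4 ^ 20) ^ (j1 + 1) := Nat.lt_pow_succ_log_self (by norm_num) N
  set J : ℕ := 240 * (j1 + 1) + 1 with hJ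
  have hDp : ∀ j, D j ≤ p := fun j => (hD (Nat.zero_le j)).trans hD0
  refine ⟨J, ?_, by omega, ?_⟩
  · have h1 : J - 1 = 40 * (j1 + 1) * 6 := by omega
    rw [h1, pow_mul]
    refine Nat.pow_le_pow_left ?_ 6
    refine hj1b.le.trans (le_of_eq ?_)
    rw [pow_mul]
    norm_num
  have hgoal : ((∑ j ∈ Finset.range J, D j : ℕ) : ℝ) ≤
      (240 * (j0 : ℝ) + 1 + 4 * Cd * (1 - q)⁻¹ + 1) * p := by
    have hpos : 0 < (1 - q)⁻¹ := inv_pos.2 (by linarith)
    have hp0 : (0 : ℝ) ≤ p := Nat.cast_nonneg p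
    rcases Nat.lt_or_ge j1 j0 with hc | hc
    · have h1 : ∑ j ∈ Finset.range J, D j ≤ J * p := by
        calc ∑ j ∈ Finset.range J, D j ≤ ∑ j ∈ Finset.range J, p :=
              Finset.sum_le_sum fun j _ => hDp j
          _ = J * p := by simp
      have h2 : J ≤ 240 * j0 + 1 := by omega
      have h3 : ((∑ j ∈ Finset.range J, D j : ℕ) : ℝ) ≤ (240 * (j0 : ℝ) + 1) * p := by
        calc ((∑ j ∈ Finset.range J, D j : ℕ) : ℝ) ≤ ((J * p : ℕ) : ℝ) := by exact_mod_cast h1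
          _ ≤ (((240 * j0 + 1) * p : ℕ) : ℝ) := by
              exact_mod_cast Nat.mul_le_mul_right p h2
          _ = (240 * (j0 : ℝ) + 1) * p := by push_cast; ring
      have h4 : 0 ≤ (4 * Cd * (1 - q)⁻¹ + 1) * p := by positivity
      have h5 : (240 * (j0 : ℝ) + 1 + 4 * Cd * (1 - q)⁻¹ + 1) * p =
        (240 * (j0 : ℝ) + 1) * p + (4 * Cd * (1 - q)⁻¹ + 1) * p := by ring
      rw [h5]
      exact h3.trans (le_add_of_nonneg_right h4)
    · have hterm : ∀ j ∈ Finset.range J, (D j : ℝ) ≤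
          (if j ∈ Finset.range (j0 + 1) then (p : ℝ) else 0) + 4 * Cd * p * q ^ j := by
        intro j hj
        have hj' := Finset.mem_range.1 hj
        have hqj : 0 ≤ 4 * Cd * p * q ^ j := by positivity
        by_cases h : j ∈ Finset.range (j0 + 1)
        · rw [if_pos h]
          have : (D j : ℝ) ≤ p := by exact_mod_cast hDp j
          linarith
        · rw [if_neg h, zero_add]
          rw [Finset.mem_range, not_lt] at h
          set m : ℕ := min (j - 1) j1 with hm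
          have hmj0 : j0 ≤ m := by
            rw [hm]
            exact le_min (by omega) hc
          have hm1 : 1 ≤ m := le_trans (by omega) hmj0
          have hmj1 : m ≤ j1 := min_le_right _ _
          have hmj : m + 1 ≤ j := by
            have : m ≤ j - 1 := min_le_left _ _
            omega
          have h4 : (4 : ℝ) ^ (20 * m) ≤ N := by
            have h5 : (4 ^ 20) ^ m ≤ N :=
              (Nat.pow_le_pow_right (by norm_num) hmj1).trans hj1a
            rw [pow_mul]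
            exact_mod_cast h5
          have h6 : Cd * ((w : ℝ) + 1) ^ 2 ≤ 2 ^ m :=
            hj0pow.trans (pow_le_pow_right₀ (by norm_num) hmj0)
          have h7 := hdim m hm1 h4 h6
          have h8 : (D j : ℝ) ≤ D (m + 1) := by exact_mod_cast hD hmj
          refine h8.trans (h7.trans ?_)
          have h9 : (2 : ℝ) ^ (-(m : ℝ) / 4) ≤ 4 * q ^ j := by
            have h10 : (4 : ℝ) * q ^ j = (2 : ℝ) ^ (2 + -(1 : ℝ) / 960 * j) := by
              rw [Real.rpow_add (by norm_num), Real.rpow_mul (by norm_num), ← hq,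
                Real.rpow_natCast]
              norm_num
            rw [h10]
            refine Real.rpow_le_rpow_of_exponent_le (by norm_num) ?_
            have h11 : (j : ℝ) ≤ 240 * ((m : ℝ) + 1) := by
              have h12 : j ≤ 240 * (m + 1) := by
                rcases le_total (j - 1) j1 with h | h
                · rw [hm, min_eq_left h]
                  omega
                · rw [hm, min_eq_right h]
                  omega
              exact_mod_cast h12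
            linarith
          calc Cd * p * (2 : ℝ) ^ (-(m : ℝ) / 4) ≤ Cd * p * (4 * q ^ j) :=
                mul_le_mul_of_nonneg_left h9 (by positivity)
            _ = 4 * Cd * p * q ^ j := by ring
      have h1 : ((∑ j ∈ Finset.range J, D j : ℕ) : ℝ) ≤
          ∑ j ∈ Finset.range J,
            ((if j ∈ Finset.range (j0 + 1) then (p : ℝ) else 0) + 4 * Cd * p * q ^ j) := by
        push_cast
        exact Finset.sum_le_sum hterm
      rw [Finset.sum_add_distrib, ← Finset.mul_sum] at h1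
      have h2 : ∑ j ∈ Finset.range J, (if j ∈ Finset.range (j0 + 1) then (p : ℝ) else 0) ≤
          ((j0 : ℝ) + 1) * p := by
        rw [← Finset.sum_filter]
        calc ∑ j ∈ (Finset.range J).filter (fun j => j ∈ Finset.range (j0 + 1)), (p : ℝ)
            ≤ ∑ j ∈ Finset.range (j0 + 1), (p : ℝ) := by
              refine Finset.sum_le_sum_of_subset_of_nonneg ?_ (fun _ _ _ => hp0)
              intro j hj
              exact (Finset.mem_filter.1 hj).2
          _ = ((j0 : ℝ) + 1) * p := by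
              simp
      have h3 : ∑ j ∈ Finset.range J, q ^ j ≤ (1 - q)⁻¹ := by
        have := (summable_geometric_of_lt_one hq0.le hq1).sum_le_tsum (Finset.range J)
          (fun _ _ => pow_nonneg hq0.le _)
        rwa [tsum_geometric_of_lt_one hq0.le hq1] at this
      have h4 : 4 * Cd * p * ∑ j ∈ Finset.range J, q ^ j ≤ 4 * Cd * p * (1 - q)⁻¹ :=
        mul_le_mul_of_nonneg_left h3 (by positivity)
      have h5 : (0 : ℝ) ≤ (j0 : ℝ) * p := by positivity
      have h6 : (240 * (j0 : ℝ) + 1 + 4 * Cd * (1 - q)⁻¹ + 1) * p =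
        (((j0 : ℝ) + 1) * p + 4 * Cd * p * (1 - q)⁻¹) + (239 * ((j0 : ℝ) * p) + p) := by ring
      rw [h6]
      have h7 : (0 : ℝ) ≤ 239 * ((j0 : ℝ) * p) + p := by positivity
      exact (h1.trans (add_le_add h2 h4)).trans (le_add_of_nonneg_right h7)
  refine hgoal.trans ?_
  have hpos : 0 < (1 - q)⁻¹ := inv_pos.2 (by linarith)
  have hp0 : (0 : ℝ) ≤ p := Nat.cast_nonneg p
  have h1 : 240 * (j0 : ℝ) + 1 + 4 * Cd * (1 - q)⁻¹ + 1 ≤
      (240 * A + 1 + 4 * Cd * (1 - q)⁻¹ + 1) * (Real.log (2 + w) / Real.log 2) := by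
    have h2 : 0 ≤ 1 + 4 * Cd * (1 - q)⁻¹ + 1 := by positivity
    have h3 := mul_le_mul_of_nonneg_left hLd h2
    have h4 : (240 * A + 1 + 4 * Cd * (1 - q)⁻¹ + 1) * (Real.log (2 + w) / Real.log 2) =
      240 * (A * (Real.log (2 + w) / Real.log 2)) +
        (1 + 4 * Cd * (1 - q)⁻¹ + 1) * (Real.log (2 + w) / Real.log 2) := by ring
    rw [h4]
    linarith only [h3, hj0le]
  calc (240 * (j0 : ℝ) + 1 + 4 * Cd * (1 - q)⁻¹ + 1) * p ≤
      ((240 * A + 1 + 4 * Cd * (1 - q)⁻¹ + 1) * (Real.log (2 + w) / Real.log 2)) * p :=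
        mul_le_mul_of_nonneg_right h1 hp0
    _ = (240 * A + 1 + 4 * Cd * (1 - q)⁻¹ + 1) / Real.log 2 * p * Real.log (2 + w) := by ring

/-! ### the kernel spaces -/

/-- solutions of the first `j` blocks -/
def tot_ker {P : Type} [Fintype P] (Rw : ℕ → Set (P → ℤ)) (j : ℕ) : Submodule ℝ (P → ℝ) where
  carrier := {v | ∀ i, i < j → ∀ r ∈ Rw i, ∑ x, (r x : ℝ) * v x = 0}
  add_mem' := by
    intro v w hv hw i hi r hr
    simp only [Pi.add_apply, mul_add]
    rw [Finset.sum_add_distrib, hv i hi r hr, hw i hi r hr, add_zero]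
  zero_mem' := by
    intro i _ r _
    simp
  smul_mem' := by
    intro c v hv i hi r hr
    have := hv i hi r hr
    simp only [Pi.smul_apply, smul_eq_mul, mul_left_comm _ c]
    rw [← Finset.mul_sum, this, mul_zero]

theorem tot_mem_ker {P : Type} [Fintype P] (Rw : ℕ → Set (P → ℤ)) (j : ℕ) (v : P → ℝ) :
    v ∈ tot_ker Rw j ↔ ∀ i, i < j → ∀ r ∈ Rw i, ∑ x, (r x : ℝ) * v x = 0 := Iff.rfl

theorem st_TOT (hLA : ST_LA) (hDIMB : ST_DIMB) (hSC : ST_SCARD) (hPNF : ST_PNF) : ST_TOT := by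
  obtain ⟨Cd', hCd', hdimb⟩ := hDIMB
  obtain ⟨Cs, hCs, hscard⟩ := hSC
  have hS : ∀ n : ℕ, 1 ≤ n → ((Sn n).card : ℝ) ≤ Cs * (n : ℝ) ^ (9 / 8 : ℝ) :=
    fun n hn => (hscard n hn).2
  set Cd : ℝ := max 1 Cd' with hCd
  have hCd1 : 1 ≤ Cd := le_max_left _ _
  have hCdle : Cd' ≤ Cd := le_max_right _ _
  obtain ⟨K, hK, hnum⟩ := tot_num Cd hCd1
  set β : ℝ := 8 * (Cs + 5) with hβ
  have hβ1 : 40 ≤ β := by
    rw [hβ]
    linarith
  have hlβ : 0 < Real.log β := Real.log_pos (by linarith)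
  refine ⟨Real.log β * K, by positivity, ?_⟩
  intro N a ε hN hε ha E hE hfin
  obtain ⟨hfinite, hNle, hcard⟩ := hPNF N hN
  have instF : Fintype (PN N) := Fintype.ofFinite (PN N)
  set Rw : ℕ → Set (PN N → ℤ) := fun j => if j = 0 then tot_R0 N ε else tot_R1 N a (2 ^ j) with hRw
  set D : ℕ → ℕ := fun j => Module.finrank ℝ (tot_ker Rw j) with hD
  have hanti : ∀ i j, i ≤ j → tot_ker Rw j ≤ tot_ker Rw i :=
    fun i j hij v hv k hk r hr => hv k (hk.trans_le hij) r hr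
  have hDanti : Antitone D := fun i j hij => Submodule.finrank_mono (hanti i j hij)
  have hcardP : Nat.card (PN N) = Fintype.card (PN N) := Nat.card_eq_fintype_card
  have hD0 : D 0 ≤ Nat.card (PN N) := by
    rw [hcardP, ← Module.finrank_fintype_fun_eq_card ℝ (η := PN N)]
    exact Submodule.finrank_le _
  have hdim : ∀ j : ℕ, 1 ≤ j → (4 : ℝ) ^ (20 * j) ≤ N →
      Cd * ((N.primeFactors.card : ℝ) + 1) ^ 2 ≤ 2 ^ j →
      (D (j + 1) : ℝ) ≤ Cd * (Nat.card (PN N) : ℝ) * (2 : ℝ) ^ (-(j : ℝ) / 4) := by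
    intro j hj h4 h2
    have h2' : Cd' * ((N.primeFactors.card : ℝ) + 1) ^ 2 ≤ 2 ^ j :=
      (mul_le_mul_of_nonneg_right hCdle (by positivity)).trans h2
    have h5 := hdimb N j a (tot_ker Rw (j + 1)) hN hj h4 h2' ha ?_
    · refine h5.trans ?_
      have : 0 ≤ (Nat.card (PN N) : ℝ) * (2 : ℝ) ^ (-(j : ℝ) / 4) := by positivity
      nlinarith
    · intro v hv l hl hlN hlj
      have h6 := hv j (Nat.lt_succ_self j)
      have h7 : Rw j = tot_R1 N a (2 ^ j) := if_neg (by omega)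
      rw [h7] at h6
      refine (tot_R1_iff a (2 ^ j) v).1 h6 l hl hlN hlj ?_
      have h8 : 2 ^ j ≤ N := by
        have h9 : ((2 : ℝ)) ^ j ≤ N := by
          refine le_trans ?_ h4
          calc (2 : ℝ) ^ j ≤ 4 ^ j := by gcongr; norm_num
            _ ≤ 4 ^ (20 * j) := pow_le_pow_right₀ (by norm_num) (by omega)
        exact_mod_cast h9
      exact (hlj.trans h8).trans (Nat.le_self_pow (by norm_num) N)
  obtain ⟨J, hJ6, hJ2, hJsum⟩ := hnum N N.primeFactors.card (Nat.card (PN N)) D hN hDanti hD0 hdim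
  have hEJ : ∀ v, v ∈ tot_ker Rw J ↔ v ∈ E := by
    intro v
    rw [hE]
    constructor
    · intro hv
      refine ⟨?_, fun l hl hlN hl6 => ?_⟩
      · rw [← tot_R0_iff]
        have h1 := hv 0 (by omega)
        have h2 : Rw 0 = tot_R0 N ε := if_pos rfl
        rwa [h2] at h1
      · have h1 := hv (J - 1) (by omega)
        have h2 : Rw (J - 1) = tot_R1 N a (2 ^ (J - 1)) := if_neg (by omega)
        rw [h2] at h1
        exact (tot_R1_iff a _ v).1 h1 l hl hlN (hl6.trans hJ6) hl6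
    · rintro ⟨hv1, hv2⟩ i hi
      by_cases h0 : i = 0
      · have h2 : Rw i = tot_R0 N ε := if_pos h0
        rw [h2]
        exact (tot_R0_iff ε v).2 hv1
      · have h2 : Rw i = tot_R1 N a (2 ^ i) := if_neg h0
        rw [h2]
        exact (tot_R1_iff a _ v).2 fun l hl hlN _ hl6 => hv2 l hl hlN hl6
  have hEeq : tot_ker Rw J = E := by
    ext v
    exact hEJ v
  have hrow : ∀ j, ∀ r ∈ Rw j, ∑ x, |(r x : ℝ)| ≤ β ^ (j + 1) := by
    intro j r hr
    by_cases h0 : j = 0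
    · have h2 : Rw j = tot_R0 N ε := if_pos h0
      rw [h2] at hr
      refine (tot_R0_l1 ε hε r hr).trans ?_
      rw [h0, zero_add, pow_one]
      linarith
    · have h2 : Rw j = tot_R1 N a (2 ^ j) := if_neg h0
      rw [h2] at hr
      refine (tot_R1_l1 Cs hCs hS a ha j r hr).trans ?_
      rw [pow_succ, mul_comm]
      have h8 : (8 : ℝ) ^ j ≤ β ^ j := by
        gcongr
        linarith
      have h9 : Cs + 5 ≤ β := by
        rw [hβ]
        linarith
      exact mul_le_mul h8 h9 (by linarith) (by positivity)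
  obtain ⟨v, hv0, hvE, hvb⟩ := hLA (PN N) J Rw (fun j => β ^ (j + 1)) (tot_ker Rw)
    (fun j => one_le_pow₀ (by linarith)) hrow (fun j v => tot_mem_ker Rw j v)
    (by rw [hEeq]; exact hfin)
  refine ⟨v, hv0, by rw [← hEeq]; exact hvE, fun x => (hvb x).trans ?_⟩
  have hprod : ∏ j ∈ Finset.range J, ((fun j => β ^ (j + 1)) j) ^
      (Module.finrank ℝ (tot_ker Rw j) - Module.finrank ℝ (tot_ker Rw (j + 1))) =
      β ^ (∑ j ∈ Finset.range J, (j + 1) * (D j - D (j + 1))) := by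
    rw [← Finset.prod_pow_eq_pow_sum]
    refine Finset.prod_congr rfl fun j _ => ?_
    rw [← pow_mul]
  rw [hprod]
  have hab := tot_abel D hDanti J
  have hle : ∑ j ∈ Finset.range J, (j + 1) * (D j - D (j + 1)) ≤ ∑ j ∈ Finset.range J, D j := by
    omega
  refine (pow_le_pow_right₀ (by linarith) hle).trans ?_
  have hβe : β ^ (∑ j ∈ Finset.range J, D j) =
      Real.exp (Real.log β * ((∑ j ∈ Finset.range J, D j : ℕ) : ℝ)) := by
    rw [mul_comm, Real.exp_nat_mul, Real.exp_log (by linarith)]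
  rw [hβe]
  refine Real.exp_le_exp.2 ?_
  have hlog : 0 ≤ Real.log (2 + (N.primeFactors.card : ℝ)) := Real.log_nonneg (by
    have : (0 : ℝ) ≤ (N.primeFactors.card : ℝ) := Nat.cast_nonneg _
    linarith)
  calc Real.log β * ((∑ j ∈ Finset.range J, D j : ℕ) : ℝ)
      ≤ Real.log β * (K * (Nat.card (PN N) : ℝ) * Real.log (2 + (N.primeFactors.card : ℝ))) :=
        mul_le_mul_of_nonneg_left hJsum hlβ.le
    _ ≤ Real.log β * (K * psi N * Real.log (2 + (N.primeFactors.card : ℝ))) := by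
        gcongr
    _ = Real.log β * K * psi N * Real.log (2 + (N.primeFactors.card : ℝ)) := by ring

end Pool.Agent.Helper96.MP
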